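import Pool.Agent.Helper24.TU.Real

/-!
Project TU (MP_464c42_nt): the exponent `n lam` of the points of small radical is attained for
every `n ≥ 2`, every `n + 2` forms in general position, every finite `S` and `0 < lam ≤ 1`.

Family: `u = (2^m b₀, …, 2^m b_(n-1), h, -h)`, `∑ b = 0`, `h` odd and prime to `b₀`; `u` is carried
to a point of the arrangement by Cramer's rule (`realize`, helper24).
-/

set_option autoImplicit false

open Pool.Agent.Helper87.Camp Pool.Agent.Helper24.TU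

namespace Pool.Agent.Helper97.RP.LT

private theorem low_sum (Z : ℕ) (hZ : 1 ≤ Z) :
    ∑ d ∈ Finset.Icc 2 Z, (1 : ℝ) / (d : ℝ) ^ 2 ≤ 3 / 4 := by
  have key : ∀ Z : ℕ, 2 ≤ Z → ∑ d ∈ Finset.Icc 2 Z, (1 : ℝ) / (d : ℝ) ^ 2 ≤ 3 / 4 - 1 / (Z : ℝ) := by
    intro Z hZ2
    induction Z, hZ2 using Nat.le_induction with
    | base => norm_num
    | succ n hn ih =>
      rw [Finset.sum_Icc_succ_top (by omega)]
      have hn0 : (0 : ℝ) < n := by
        have : 0 < n := by omega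
        exact_mod_cast this
      have h1 : (1 : ℝ) / ((n + 1 : ℕ) : ℝ) ^ 2 ≤ 1 / (n : ℝ) - 1 / ((n + 1 : ℕ) : ℝ) := by
        push_cast
        rw [div_sub_div _ _ hn0.ne' (by positivity), div_le_div_iff₀ (by positivity) (by positivity)]
        nlinarith
      linarith
  rcases Nat.lt_or_ge Z 2 with h | h
  · have : Finset.Icc 2 Z = ∅ := by
      rw [Finset.Icc_eq_empty_iff]
      omega
    rw [this]
    norm_num
  · have h2 := key Z h
    have : (0 : ℝ) ≤ 1 / (Z : ℝ) := by positivity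
    linarith

private theorem low_coprime (Z : ℕ) (hZ : 1 ≤ Z) :
    (Z : ℝ) ^ 2 / 4 ≤
      (((Finset.Icc 1 Z ×ˢ Finset.Icc 1 Z).filter (fun w => Nat.Coprime w.1 w.2)).card : ℝ) := by
  have hsplit := Finset.card_filter_add_card_filter_not
    (s := Finset.Icc 1 Z ×ˢ Finset.Icc 1 Z) (fun w : ℕ × ℕ => Nat.Coprime w.1 w.2)
  have hall : (Finset.Icc 1 Z ×ˢ Finset.Icc 1 Z).card = Z ^ 2 := by
    rw [Finset.card_product, Nat.card_Icc]
    simp only [Nat.add_sub_cancel]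
    ring
  have hsub : (Finset.Icc 1 Z ×ˢ Finset.Icc 1 Z).filter (fun w => ¬ Nat.Coprime w.1 w.2) ⊆
      (Finset.Icc 2 Z).biUnion (fun d =>
        (Finset.Icc 1 (Z / d) ×ˢ Finset.Icc 1 (Z / d)).image (fun w => (d * w.1, d * w.2))) := by
    intro w hw
    rw [Finset.mem_filter, Finset.mem_product, Finset.mem_Icc, Finset.mem_Icc] at hw
    obtain ⟨⟨⟨h1, h2⟩, ⟨h3, h4⟩⟩, h5⟩ := hw
    have hg : Nat.gcd w.1 w.2 ≠ 1 := h5
    have hgpos : 0 < Nat.gcd w.1 w.2 := Nat.gcd_pos_of_pos_left _ (by omega)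
    obtain ⟨a, ha⟩ := Nat.gcd_dvd_left w.1 w.2
    obtain ⟨b, hb⟩ := Nat.gcd_dvd_right w.1 w.2
    have hgle : Nat.gcd w.1 w.2 ≤ Z := (Nat.le_of_dvd (by omega) (Nat.gcd_dvd_left _ _)).trans h2
    rw [Finset.mem_biUnion]
    refine ⟨Nat.gcd w.1 w.2, by rw [Finset.mem_Icc]; omega, ?_⟩
    rw [Finset.mem_image]
    refine ⟨(a, b), ?_, ?_⟩
    · rw [Finset.mem_product, Finset.mem_Icc, Finset.mem_Icc]
      refine ⟨⟨?_, ?_⟩, ⟨?_, ?_⟩⟩
      · rcases Nat.eq_zero_or_pos a with h | h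
        · rw [h, mul_zero] at ha; omega
        · exact h
      · rw [Nat.le_div_iff_mul_le hgpos, mul_comm]
        exact ha ▸ h2
      · rcases Nat.eq_zero_or_pos b with h | h
        · rw [h, mul_zero] at hb; omega
        · exact h
      · rw [Nat.le_div_iff_mul_le hgpos, mul_comm]
        exact hb ▸ h4
    · exact Prod.ext ha.symm hb.symm
  have hcard : (((Finset.Icc 1 Z ×ˢ Finset.Icc 1 Z).filter
      (fun w => ¬ Nat.Coprime w.1 w.2)).card : ℝ) ≤ 3 / 4 * (Z : ℝ) ^ 2 := by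
    have h1 : ((Finset.Icc 1 Z ×ˢ Finset.Icc 1 Z).filter
        (fun w => ¬ Nat.Coprime w.1 w.2)).card ≤ ∑ d ∈ Finset.Icc 2 Z, (Z / d) ^ 2 := by
      refine (Finset.card_le_card hsub).trans (Finset.card_biUnion_le.trans ?_)
      apply Finset.sum_le_sum
      intro d _
      refine Finset.card_image_le.trans ?_
      rw [Finset.card_product, Nat.card_Icc]
      simp only [Nat.add_sub_cancel]
      exact le_of_eq (by ring)
    have h2 : ((∑ d ∈ Finset.Icc 2 Z, (Z / d) ^ 2 : ℕ) : ℝ) ≤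
        ∑ d ∈ Finset.Icc 2 Z, (1 : ℝ) / (d : ℝ) ^ 2 * (Z : ℝ) ^ 2 := by
      push_cast
      apply Finset.sum_le_sum
      intro d _
      have h3 : ((Z / d : ℕ) : ℝ) ≤ (Z : ℝ) / (d : ℝ) := Nat.cast_div_le
      calc ((Z / d : ℕ) : ℝ) ^ 2 ≤ ((Z : ℝ) / (d : ℝ)) ^ 2 :=
            pow_le_pow_left₀ (Nat.cast_nonneg _) h3 2
        _ = _ := by ring
    rw [← Finset.sum_mul] at h2
    calc _ ≤ ((∑ d ∈ Finset.Icc 2 Z, (Z / d) ^ 2 : ℕ) : ℝ) := by exact_mod_cast h1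
      _ ≤ _ := h2
      _ ≤ _ := mul_le_mul_of_nonneg_right (low_sum Z hZ) (by positivity)
  have hs : ((((Finset.Icc 1 Z ×ˢ Finset.Icc 1 Z).filter
      (fun w => Nat.Coprime w.1 w.2)).card : ℕ) : ℝ) +
      (((Finset.Icc 1 Z ×ˢ Finset.Icc 1 Z).filter
      (fun w => ¬ Nat.Coprime w.1 w.2)).card : ℝ) = (Z : ℝ) ^ 2 := by
    rw [hall] at hsplit
    exact_mod_cast hsplit
  linarith


/-- Pairs of coprime numbers, the second odd, the first large. -/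
theorem pairs_card (Z : ℕ) (hZ : 1 ≤ Z) :
    (Z : ℝ) ^ 2 / 16 ≤
      (((Finset.Icc 1 Z ×ˢ Finset.Icc 1 Z).filter
        (fun w => Nat.Coprime w.1 w.2 ∧ ¬ 2 ∣ w.2 ∧ Z < 16 * w.1)).card : ℝ) := by
  classical
  obtain ⟨P, hP⟩ : ∃ P : Finset (ℕ × ℕ), P =
    (Finset.Icc 1 Z ×ˢ Finset.Icc 1 Z).filter (fun w => Nat.Coprime w.1 w.2) := ⟨_, rfl⟩
  obtain ⟨Q, hQ⟩ : ∃ Q : Finset (ℕ × ℕ), Q =
    (Finset.Icc 1 Z ×ˢ Finset.Icc 1 Z).filter (fun w => Nat.Coprime w.1 w.2 ∧ ¬ 2 ∣ w.2) :=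
    ⟨_, rfl⟩
  obtain ⟨R, hR⟩ : ∃ R : Finset (ℕ × ℕ), R =
    (Finset.Icc 1 Z ×ˢ Finset.Icc 1 Z).filter
      (fun w => Nat.Coprime w.1 w.2 ∧ ¬ 2 ∣ w.2 ∧ Z < 16 * w.1) := ⟨_, rfl⟩
  rw [← hR]
  have h1 : (Z : ℝ) ^ 2 / 4 ≤ (P.card : ℝ) := by
    rw [hP]
    exact low_coprime Z hZ
  have h2 : P.card ≤ Q.card + Q.card := by
    have hsub : P ⊆ Q ∪ Q.image Prod.swap := by
      intro w hw
      rw [hP, Finset.mem_filter, Finset.mem_product] at hw
      obtain ⟨⟨ha, hb⟩, hc⟩ := hw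
      rw [Finset.mem_union, Finset.mem_image]
      by_cases h : 2 ∣ w.2
      · right
        refine ⟨w.swap, ?_, Prod.swap_swap w⟩
        rw [hQ, Finset.mem_filter, Finset.mem_product]
        refine ⟨⟨hb, ha⟩, hc.symm, fun h' => ?_⟩
        have := Nat.dvd_gcd h' h
        rw [Nat.Coprime] at hc
        change 2 ∣ Nat.gcd w.1 w.2 at this
        rw [hc] at this
        omega
      · left
        rw [hQ, Finset.mem_filter, Finset.mem_product]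
        exact ⟨⟨ha, hb⟩, hc, h⟩
    calc P.card ≤ (Q ∪ Q.image Prod.swap).card := Finset.card_le_card hsub
      _ ≤ Q.card + (Q.image Prod.swap).card := Finset.card_union_le _ _
      _ ≤ Q.card + Q.card := Nat.add_le_add_left Finset.card_image_le _
  have h3 : Q.card ≤ R.card + Z / 16 * Z := by
    have hsub : Q ⊆ R ∪ (Finset.Icc 1 (Z / 16) ×ˢ Finset.Icc 1 Z) := by
      intro w hw
      rw [hQ, Finset.mem_filter, Finset.mem_product, Finset.mem_Icc, Finset.mem_Icc] at hw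
      obtain ⟨⟨ha, hb⟩, hc, hd⟩ := hw
      rw [Finset.mem_union]
      by_cases h : Z < 16 * w.1
      · left
        rw [hR, Finset.mem_filter, Finset.mem_product, Finset.mem_Icc, Finset.mem_Icc]
        exact ⟨⟨ha, hb⟩, hc, hd, h⟩
      · right
        rw [Finset.mem_product, Finset.mem_Icc, Finset.mem_Icc]
        exact ⟨⟨ha.1, by omega⟩, hb⟩
    calc Q.card ≤ (R ∪ (Finset.Icc 1 (Z / 16) ×ˢ Finset.Icc 1 Z)).card :=
          Finset.card_le_card hsub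
      _ ≤ R.card + (Finset.Icc 1 (Z / 16) ×ˢ Finset.Icc 1 Z).card := Finset.card_union_le _ _
      _ = R.card + Z / 16 * Z := by
          rw [Finset.card_product, Nat.card_Icc, Nat.card_Icc]
          simp only [Nat.add_sub_cancel]
  have h2' : (P.card : ℝ) ≤ Q.card + Q.card := by exact_mod_cast h2
  have h3' : (Q.card : ℝ) ≤ R.card + ((Z / 16 : ℕ) : ℝ) * Z := by exact_mod_cast h3
  have h4 : ((Z / 16 : ℕ) : ℝ) ≤ (Z : ℝ) / 16 := by
    have := @Nat.cast_div_le ℝ _ _ _ Z 16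
    simpa using this
  have h5 : ((Z / 16 : ℕ) : ℝ) * Z ≤ (Z : ℝ) / 16 * Z :=
    mul_le_mul_of_nonneg_right h4 (Nat.cast_nonneg _)
  have h6 : (Z : ℝ) / 16 * Z = (Z : ℝ) ^ 2 / 16 := by ring
  linarith

/-- The radical is at most any number divisible by all the primes involved. -/
theorem radS_le (S : Finset ℕ) (a : ℤ) (N : ℕ) (hN : N ≠ 0)
    (h : ∀ p : ℕ, p.Prime → p ∣ a.natAbs → p ∣ N) : radS S a ≤ N := by
  unfold radS
  have hsub : a.natAbs.primeFactors.filter (fun p => p ∉ S) ⊆ N.primeFactors := by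
    intro p hp
    have hp' := (Finset.mem_filter.1 hp).1
    have hpp := Nat.prime_of_mem_primeFactors hp'
    rw [Nat.mem_primeFactors]
    exact ⟨hpp, h p hpp (Nat.dvd_of_mem_primeFactors hp'), hN⟩
  calc ∏ p ∈ a.natAbs.primeFactors.filter (fun p => p ∉ S), p
      ≤ ∏ p ∈ N.primeFactors, p := by
        apply Finset.prod_le_prod_of_subset_of_one_le' hsub
        intro p hp _
        exact (Nat.prime_of_mem_primeFactors hp).pos
    _ ≤ N := Nat.le_of_dvd (Nat.pos_of_ne_zero hN) (Nat.prod_primeFactors_dvd N)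

variable {k : ℕ}

/-- The family of primitive zero sum vectors. -/
def fam (m w h : ℕ) (v : Fin k → ℕ) : Fin (k + 4) → ℤ :=
  Fin.cons ((2 ^ m * w : ℕ) : ℤ)
    (Fin.snoc (α := fun _ => ℤ) (Fin.snoc (α := fun _ => ℤ) (Fin.snoc (α := fun _ => ℤ)
      (fun i => ((2 ^ m * v i : ℕ) : ℤ)) (-((2 ^ m * (w + ∑ i, v i) : ℕ) : ℤ))) (h : ℤ)) (-(h : ℤ)))

theorem fam_sum (m w h : ℕ) (v : Fin k → ℕ) : ∑ i, fam m w h v i = 0 := by
  unfold fam
  rw [Fin.sum_cons, Fin.sum_snoc, Fin.sum_snoc, Fin.sum_snoc]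
  push_cast
  rw [mul_add, Finset.mul_sum]
  ring

/-- Every entry is, up to sign, a power of two times a small number. -/
theorem fam_entry (m w h Z : ℕ) (v : Fin k → ℕ) (hw : 1 ≤ w ∧ w ≤ Z) (hh : 1 ≤ h ∧ h ≤ Z)
    (hv : ∀ i, 1 ≤ v i ∧ v i ≤ Z) (i : Fin (k + 4)) :
    ∃ s b : ℕ, (fam m w h v i).natAbs = 2 ^ s * b ∧ s ≤ m ∧ 1 ≤ b ∧ b ≤ (k + 1) * Z := by
  have hk : Z ≤ (k + 1) * Z := Nat.le_mul_of_pos_left Z (Nat.succ_pos k)
  have hs : ∑ i, v i ≤ k * Z := by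
    calc ∑ i, v i ≤ ∑ _i : Fin k, Z := Finset.sum_le_sum fun i _ => (hv i).2
      _ = k * Z := by simp
  unfold fam
  refine Fin.cases ?_ (fun i => ?_) i
  · exact ⟨m, w, by rw [Fin.cons_zero, Int.natAbs_natCast], le_rfl, hw.1, hw.2.trans hk⟩
  · rw [Fin.cons_succ]
    refine Fin.lastCases ?_ (fun i => ?_) i
    · refine ⟨0, h, ?_, Nat.zero_le _, hh.1, hh.2.trans hk⟩
      rw [Fin.snoc_last, Int.natAbs_neg, Int.natAbs_natCast, pow_zero, one_mul]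
    · rw [Fin.snoc_castSucc]
      refine Fin.lastCases ?_ (fun i => ?_) i
      · refine ⟨0, h, ?_, Nat.zero_le _, hh.1, hh.2.trans hk⟩
        rw [Fin.snoc_last, Int.natAbs_natCast, pow_zero, one_mul]
      · rw [Fin.snoc_castSucc]
        refine Fin.lastCases ?_ (fun i => ?_) i
        · refine ⟨m, w + ∑ i, v i, ?_, le_rfl, by omega, ?_⟩
          · rw [Fin.snoc_last, Int.natAbs_neg, Int.natAbs_natCast]
          · calc w + ∑ i, v i ≤ Z + k * Z := Nat.add_le_add hw.2 hs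
              _ = (k + 1) * Z := by ring
        · refine ⟨m, v i, ?_, le_rfl, (hv i).1, (hv i).2.trans hk⟩
          rw [Fin.snoc_castSucc, Int.natAbs_natCast]

theorem fam_zero (m w h : ℕ) (v : Fin k → ℕ) : fam m w h v 0 = ((2 ^ m * w : ℕ) : ℤ) := rfl

theorem fam_h (m w h : ℕ) (v : Fin k → ℕ) :
    fam m w h v (Fin.succ (Fin.castSucc (Fin.last (k + 1)))) = (h : ℤ) := by
  unfold fam
  rw [Fin.cons_succ, Fin.snoc_castSucc, Fin.snoc_last]

theorem fam_v (m w h : ℕ) (v : Fin k → ℕ) (i : Fin k) :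
    fam m w h v (Fin.succ (Fin.castSucc (Fin.castSucc (Fin.castSucc i)))) =
      ((2 ^ m * v i : ℕ) : ℤ) := by
  unfold fam
  rw [Fin.cons_succ, Fin.snoc_castSucc, Fin.snoc_castSucc, Fin.snoc_castSucc]

theorem fam_prim (m w h : ℕ) (v : Fin k → ℕ) (hc : Nat.Coprime w h) (ho : ¬ 2 ∣ h)
    (d : ℤ) (hd : ∀ i, d ∣ fam m w h v i) : IsUnit d := by
  have h1 := hd 0
  have h2 := hd (Fin.succ (Fin.castSucc (Fin.last (k + 1))))
  rw [fam_zero] at h1
  rw [fam_h] at h2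
  have h3 : Nat.Coprime (2 ^ m * w) h := by
    apply Nat.Coprime.mul_left _ hc
    apply Nat.Coprime.pow_left
    exact (Nat.Prime.coprime_iff_not_dvd Nat.prime_two).2 ho
  have h4 : IsCoprime ((2 ^ m * w : ℕ) : ℤ) (h : ℤ) := Nat.isCoprime_iff_coprime.mpr h3
  exact h4.isUnit_of_dvd' h1 h2

/-- Two members of the family on the same line are equal. -/
theorem fam_inj (m w h w' h' : ℕ) (v v' : Fin k → ℕ) (hh : 1 ≤ h)
    (hc : Nat.Coprime w h) (hc' : Nat.Coprime w' h')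
    (hp : ∀ i j, fam m w h v i * fam m w' h' v' j = fam m w h v j * fam m w' h' v' i) :
    w = w' ∧ h = h' ∧ v = v' := by
  have h2 : 0 < 2 ^ m := pow_pos (by norm_num) m
  have e0 := hp 0 (Fin.succ (Fin.castSucc (Fin.last (k + 1))))
  rw [fam_zero, fam_zero, fam_h, fam_h] at e0
  have e1 : 2 ^ m * w * h' = h * (2 ^ m * w') := by exact_mod_cast e0
  have e2 : w * h' = h * w' := by
    apply Nat.eq_of_mul_eq_mul_left h2
    linarith
  have d1 : h ∣ h' := by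
    apply hc.symm.dvd_of_dvd_mul_left
    rw [e2]
    exact Dvd.intro _ rfl
  have d2 : h' ∣ h := by
    apply hc'.symm.dvd_of_dvd_mul_right
    rw [← e2]
    exact Dvd.intro_left _ rfl
  have eh : h = h' := Nat.dvd_antisymm d1 d2
  subst eh
  have ew : w = w' := by
    apply Nat.eq_of_mul_eq_mul_left (by omega : 0 < h)
    linarith
  refine ⟨ew, rfl, ?_⟩
  funext i
  have e3 := hp (Fin.succ (Fin.castSucc (Fin.castSucc (Fin.castSucc i))))
    (Fin.succ (Fin.castSucc (Fin.last (k + 1))))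
  rw [fam_v, fam_v, fam_h, fam_h] at e3
  have e4 : 2 ^ m * v i * h = h * (2 ^ m * v' i) := by exact_mod_cast e3
  apply Nat.eq_of_mul_eq_mul_left h2
  apply Nat.eq_of_mul_eq_mul_left (by omega : 0 < h)
  linarith

/-- What is used of `realize`. -/
def Realize {n : ℕ} (L : Matrix (Fin (n + 2)) (Fin (n + 1)) ℤ) (A : ℕ) : Prop :=
  ∀ u : Fin (n + 2) → ℤ, ∑ i, u i = 0 → (∀ d : ℤ, (∀ i, d ∣ u i) → IsUnit d) →
    ∃ x : Fin (n + 1) → ℤ, (∀ d : ℤ, (∀ j, d ∣ x j) → IsUnit d) ∧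
      (∀ i, form L i x ∣ (A : ℤ) * u i) ∧
      (∀ i j, u i * (rel L j * form L j x) = u j * (rel L i * form L i x)) ∧
      (∀ N : ℕ, (∀ i, (u i).natAbs ≤ N) → ht x ≤ A * N) ∧
      (∀ i, (u i).natAbs ≤ A * ht x)

theorem low_trunc_aux (S : Finset ℕ) (L : Matrix (Fin (k + 2 + 2)) (Fin (k + 2 + 1)) ℤ)
    (hL : ∀ i, minor L i ≠ 0) (A : ℕ) (hA : 1 ≤ A) (hR : Realize L A)
    (lam : ℝ) (h0 : 0 < lam) (h1 : lam ≤ 1) :
    ∃ c : ℝ, 0 < c ∧ ∃ B₀ : ℕ, ∀ B : ℕ, B₀ ≤ B →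
      c * (B : ℝ) ^ (((k + 2 : ℕ) : ℝ) * lam) ≤
        ({x : Fin (k + 2 + 1) → ℤ | (∀ d : ℤ, (∀ j, d ∣ x j) → IsUnit d) ∧
          (∀ i, form L i x ≠ 0 ∧ (radS S (form L i x) : ℝ) ≤ (ht x : ℝ) ^ lam) ∧
          ht x ≤ B}.ncard : ℝ) := by
  classical
  have hA0 : (0 : ℝ) < A := by exact_mod_cast hA
  have hk0 : (0 : ℝ) < (k : ℝ) + 1 := by positivity
  obtain ⟨D, hD⟩ : ∃ D : ℝ, D = 32 * (A : ℝ) ^ 2 * (k + 1) := ⟨_, rfl⟩
  have hD0 : 0 < D := by rw [hD]; positivity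
  obtain ⟨E, hE⟩ : ∃ E : ℝ, E = 2 * (A : ℝ) * (k + 1) := ⟨_, rfl⟩
  have hE0 : 0 < E := by rw [hE]; positivity
  -- the threshold
  obtain ⟨B1, hB1⟩ : ∃ B1 : ℕ, ∀ B : ℕ, B1 ≤ B → 1 ≤ ((B : ℝ) / D) ^ lam / E ∧ D ≤ (B : ℝ) := by
    have t1 : Filter.Tendsto (fun B : ℕ => ((B : ℝ) / D) ^ lam) Filter.atTop Filter.atTop :=
      (tendsto_rpow_atTop h0).comp
        ((tendsto_natCast_atTop_atTop (R := ℝ)).atTop_div_const hD0)
    have t2 := (t1.eventually_ge_atTop E).and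
      ((tendsto_natCast_atTop_atTop (R := ℝ)).eventually_ge_atTop D)
    obtain ⟨B1, hB1⟩ := Filter.eventually_atTop.1 t2
    refine ⟨B1, fun B hB => ?_⟩
    obtain ⟨a, b⟩ := hB1 B hB
    refine ⟨?_, b⟩
    rw [le_div_iff₀ hE0]
    linarith
  refine ⟨((1 / D) ^ lam / E / 2) ^ (k + 2) / 16, by positivity, B1, fun B hB => ?_⟩
  obtain ⟨hy1, hDB⟩ := hB1 B hB
  have hB0 : (0 : ℝ) < B := lt_of_lt_of_le hD0 hDB
  obtain ⟨y, hy⟩ : ∃ y : ℝ, y = ((B : ℝ) / D) ^ lam / E := ⟨_, rfl⟩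
  rw [← hy] at hy1
  obtain ⟨Z, hZ⟩ : ∃ Z : ℕ, Z = ⌊y⌋₊ := ⟨_, rfl⟩
  have hZ1 : 1 ≤ Z := by
    rw [hZ]
    exact Nat.le_floor (by exact_mod_cast hy1)
  have hZy : (Z : ℝ) ≤ y := by
    rw [hZ]
    exact Nat.floor_le (by linarith)
  have hyZ : y / 2 ≤ Z := by
    have h2 : y < (Z : ℝ) + 1 := by
      rw [hZ]
      exact Nat.lt_floor_add_one y
    have h3 : (1 : ℝ) ≤ Z := by exact_mod_cast hZ1
    linarith
  -- the power of two
  obtain ⟨K, hK⟩ : ∃ K : ℕ, K = A * ((k + 1) * Z) := ⟨_, rfl⟩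
  have hK1 : 1 ≤ K := by
    rw [hK]
    exact Nat.mul_pos hA (Nat.mul_pos (Nat.succ_pos k) hZ1)
  have hBD1 : 1 ≤ (B : ℝ) / D := by
    rw [le_div_iff₀ hD0]
    linarith
  have hKr : 2 * (K : ℝ) ≤ ((B : ℝ) / D) ^ lam := by
    have h2 : (Z : ℝ) * E ≤ ((B : ℝ) / D) ^ lam := by
      rw [hy, le_div_iff₀ hE0] at hZy
      exact hZy
    rw [hK]
    push_cast
    calc 2 * ((A : ℝ) * (((k : ℝ) + 1) * Z)) = (Z : ℝ) * E := by rw [hE]; ring
      _ ≤ _ := h2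
  have hKB : K ≤ B := by
    have h2 : ((B : ℝ) / D) ^ lam ≤ (B : ℝ) / D := by
      calc ((B : ℝ) / D) ^ lam ≤ ((B : ℝ) / D) ^ (1 : ℝ) :=
            Real.rpow_le_rpow_of_exponent_le hBD1 h1
        _ = _ := Real.rpow_one _
    have h3 : (B : ℝ) / D ≤ B := by
      apply div_le_self hB0.le
      rw [hD]
      have hA1 : (1 : ℝ) ≤ (A : ℝ) ^ 2 := one_le_pow₀ (by exact_mod_cast hA)
      nlinarith [Nat.cast_nonneg (α := ℝ) k, mul_nonneg (Nat.cast_nonneg (α := ℝ) k)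
        (by linarith : (0 : ℝ) ≤ (A : ℝ) ^ 2 - 1)]
    have h4 : (0 : ℝ) ≤ K := Nat.cast_nonneg _
    have h5 : (K : ℝ) ≤ B := by linarith
    exact_mod_cast h5
  obtain ⟨m, hm⟩ : ∃ m : ℕ, m = Nat.log 2 (B / K) := ⟨_, rfl⟩
  have hBK : B / K ≠ 0 := (Nat.div_pos hKB (by omega)).ne'
  have hm1 : 2 ^ m * K ≤ B := by
    have h2 : 2 ^ m ≤ B / K := by
      rw [hm]
      exact Nat.pow_log_le_self 2 hBK
    exact (Nat.le_div_iff_mul_le (by omega)).1 h2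
  have hm2 : B < 2 ^ (m + 1) * K := by
    have h2 : B / K < 2 ^ (m + 1) := by
      rw [hm]
      exact Nat.lt_pow_succ_log_self (by norm_num) _
    exact (Nat.div_lt_iff_lt_mul (by omega)).1 h2
  -- the parameters
  obtain ⟨P, hP⟩ : ∃ P : Finset (ℕ × ℕ), P = (Finset.Icc 1 Z ×ˢ Finset.Icc 1 Z).filter
    (fun w => Nat.Coprime w.1 w.2 ∧ ¬ 2 ∣ w.2 ∧ Z < 16 * w.1) := ⟨_, rfl⟩
  obtain ⟨F, hF⟩ : ∃ F : Finset ((ℕ × ℕ) × (Fin k → ℕ)),
    F = P ×ˢ Fintype.piFinset (fun _ : Fin k => Finset.Icc 1 Z) := ⟨_, rfl⟩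
  have hFc : F.card = P.card * Z ^ k := by
    rw [hF, Finset.card_product, Fintype.card_piFinset]
    simp
  have hmem : ∀ q ∈ F, (1 ≤ q.1.1 ∧ q.1.1 ≤ Z) ∧ (1 ≤ q.1.2 ∧ q.1.2 ≤ Z) ∧
      Nat.Coprime q.1.1 q.1.2 ∧ ¬ 2 ∣ q.1.2 ∧ Z < 16 * q.1.1 ∧ ∀ i, 1 ≤ q.2 i ∧ q.2 i ≤ Z := by
    intro q hq
    rw [hF, Finset.mem_product, hP, Finset.mem_filter, Finset.mem_product, Finset.mem_Icc,
      Finset.mem_Icc, Fintype.mem_piFinset] at hq
    obtain ⟨⟨⟨a, b⟩, c, d, e⟩, f⟩ := hq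
    exact ⟨a, b, c, d, e, fun i => Finset.mem_Icc.1 (f i)⟩
  -- the points
  have hpt : ∀ q : (ℕ × ℕ) × (Fin k → ℕ), ∃ x : Fin (k + 2 + 1) → ℤ, q ∈ F →
      (∀ d : ℤ, (∀ j, d ∣ x j) → IsUnit d) ∧
      (∀ i, form L i x ∣ (A : ℤ) * fam m q.1.1 q.1.2 q.2 i) ∧
      (∀ i j, fam m q.1.1 q.1.2 q.2 i * (rel L j * form L j x) =
        fam m q.1.1 q.1.2 q.2 j * (rel L i * form L i x)) ∧
      (∀ N : ℕ, (∀ i, (fam m q.1.1 q.1.2 q.2 i).natAbs ≤ N) → ht x ≤ A * N) ∧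
      (∀ i, (fam m q.1.1 q.1.2 q.2 i).natAbs ≤ A * ht x) := by
    intro q
    by_cases hq : q ∈ F
    · obtain ⟨-, -, c, d, -, -⟩ := hmem q hq
      obtain ⟨x, hx⟩ := hR (fam m q.1.1 q.1.2 q.2) (fam_sum _ _ _ _) (fam_prim _ _ _ _ c d)
      exact ⟨x, fun _ => hx⟩
    · exact ⟨0, fun h => absurd h hq⟩
  choose X hX using hpt
  have hne : ∀ q ∈ F, ∀ i, form L i (X q) ≠ 0 := by
    intro q hq i h
    obtain ⟨a, b, -, -, -, f⟩ := hmem q hq
    obtain ⟨s, t, e1, -, e3, -⟩ := fam_entry m q.1.1 q.1.2 Z q.2 a b f i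
    have h2 := (hX q hq).2.1 i
    rw [h, zero_dvd_iff, mul_eq_zero] at h2
    rcases h2 with h2 | h2
    · have : (A : ℤ) ≠ 0 := by exact_mod_cast (by omega : A ≠ 0)
      exact this h2
    · rw [h2, Int.natAbs_zero] at e1
      have : 0 < 2 ^ s * t := Nat.mul_pos (pow_pos (by norm_num) s) e3
      omega
  obtain ⟨T, hT⟩ : ∃ T : Set (Fin (k + 2 + 1) → ℤ), T =
    {x : Fin (k + 2 + 1) → ℤ | (∀ d : ℤ, (∀ j, d ∣ x j) → IsUnit d) ∧
          (∀ i, form L i x ≠ 0 ∧ (radS S (form L i x) : ℝ) ≤ (ht x : ℝ) ^ lam) ∧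
          ht x ≤ B} := ⟨_, rfl⟩
  rw [← hT]
  have hfin : T.Finite := by
    apply (Set.finite_Icc (fun _ : Fin (k + 2 + 1) => (-(B : ℤ))) (fun _ => (B : ℤ))).subset
    intro x hx
    rw [hT] at hx
    have hx2 : ∀ j, (x j).natAbs ≤ B := fun j => (le_ht x j).trans hx.2.2
    refine ⟨fun j => ?_, fun j => ?_⟩
    · have := hx2 j
      change -(B : ℤ) ≤ x j
      omega
    · have := hx2 j
      change x j ≤ (B : ℤ)
      omega
  have hsub : ((F.image X : Finset (Fin (k + 2 + 1) → ℤ)) : Set (Fin (k + 2 + 1) → ℤ)) ⊆ T := by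
    intro x hx
    rw [Finset.mem_coe, Finset.mem_image] at hx
    obtain ⟨q, hq, rfl⟩ := hx
    obtain ⟨a, b, -, -, e, f⟩ := hmem q hq
    obtain ⟨g1, g2, -, g4, g5⟩ := hX q hq
    rw [hT]
    refine ⟨g1, fun i => ⟨hne q hq i, ?_⟩, ?_⟩
    · -- the radical
      obtain ⟨s, t, e1, -, e3, e4⟩ := fam_entry m q.1.1 q.1.2 Z q.2 a b f i
      have r1 : radS S (form L i (X q)) ≤ A * (2 * t) := by
        apply radS_le
        · exact (Nat.mul_pos hA (Nat.mul_pos (by norm_num) e3)).ne'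
        · intro p hp hpd
          have h2 : p ∣ A * (2 ^ s * t) := by
            have h3 : (form L i (X q)).natAbs ∣ ((A : ℤ) * fam m q.1.1 q.1.2 q.2 i).natAbs :=
              Int.natAbs_dvd_natAbs.2 (g2 i)
            rw [Int.natAbs_mul, Int.natAbs_natCast, e1] at h3
            exact hpd.trans h3
          rcases (Nat.Prime.dvd_mul hp).1 h2 with h3 | h3
          · exact Dvd.dvd.mul_right h3 _
          · rcases (Nat.Prime.dvd_mul hp).1 h3 with h4 | h4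
            · exact Dvd.dvd.mul_left (Dvd.dvd.mul_right (hp.dvd_of_dvd_pow h4) _) _
            · exact Dvd.dvd.mul_left (Dvd.dvd.mul_left h4 _) _
      have r2 : radS S (form L i (X q)) ≤ 2 * K := by
        calc radS S (form L i (X q)) ≤ A * (2 * t) := r1
          _ ≤ A * (2 * ((k + 1) * Z)) := Nat.mul_le_mul_left _ (Nat.mul_le_mul_left _ e4)
          _ = 2 * K := by rw [hK]; ring
      have r3 : (B : ℝ) / D ≤ ht (X q) := by
        have h2 := g5 0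
        rw [fam_zero, Int.natAbs_natCast] at h2
        have h3 : (B : ℝ) ≤ 2 * 2 ^ m * K := by
          have : B ≤ 2 * 2 ^ m * K := by
            calc B ≤ 2 ^ (m + 1) * K := hm2.le
              _ = 2 * 2 ^ m * K := by ring
          exact_mod_cast this
        have h4 : (Z : ℝ) ≤ 16 * q.1.1 := by
          have : Z ≤ 16 * q.1.1 := e.le
          exact_mod_cast this
        have h5 : (2 : ℝ) ^ m * q.1.1 ≤ A * ht (X q) := by exact_mod_cast h2
        rw [div_le_iff₀ hD0, hD]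
        have h6 : (K : ℝ) = A * ((k + 1) * Z) := by rw [hK]; push_cast; ring
        calc (B : ℝ) ≤ 2 * 2 ^ m * K := h3
          _ = 2 * A * (k + 1) * (2 ^ m * Z) := by rw [h6]; ring
          _ ≤ 2 * A * (k + 1) * (2 ^ m * (16 * q.1.1)) := by
              apply mul_le_mul_of_nonneg_left _ (by positivity)
              exact mul_le_mul_of_nonneg_left h4 (by positivity)
          _ = 32 * A * (k + 1) * (2 ^ m * q.1.1) := by ring
          _ ≤ 32 * A * (k + 1) * (A * ht (X q)) :=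
              mul_le_mul_of_nonneg_left h5 (by positivity)
          _ = _ := by ring
      calc (radS S (form L i (X q)) : ℝ) ≤ 2 * K := by exact_mod_cast r2
        _ ≤ ((B : ℝ) / D) ^ lam := hKr
        _ ≤ (ht (X q) : ℝ) ^ lam := Real.rpow_le_rpow (by positivity) r3 h0.le
    · -- the height
      have h2 : ht (X q) ≤ A * (2 ^ m * ((k + 1) * Z)) := by
        apply g4
        intro i
        obtain ⟨s, t, e1, e2, -, e4⟩ := fam_entry m q.1.1 q.1.2 Z q.2 a b f i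
        rw [e1]
        exact Nat.mul_le_mul (Nat.pow_le_pow_right (by norm_num) e2) e4
      calc ht (X q) ≤ A * (2 ^ m * ((k + 1) * Z)) := h2
        _ = 2 ^ m * K := by rw [hK]; ring
        _ ≤ B := hm1
  have hinj : Set.InjOn X (F : Set ((ℕ × ℕ) × (Fin k → ℕ))) := by
    intro q hq q' hq' hqq
    have hq := Finset.mem_coe.1 hq
    have hq' := Finset.mem_coe.1 hq'
    obtain ⟨-, b, c, -, -, -⟩ := hmem q hq
    obtain ⟨-, -, c', -, -, -⟩ := hmem q' hq'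
    have g3 := (hX q hq).2.2.1
    have g3' := (hX q' hq').2.2.1
    rw [← hqq] at g3'
    have hg : ∀ i, rel L i * form L i (X q) ≠ 0 := by
      intro i
      apply mul_ne_zero _ (hne q hq i)
      unfold rel
      exact mul_ne_zero (pow_ne_zero _ (by norm_num)) (hL i)
    have hpr : ∀ i j, fam m q.1.1 q.1.2 q.2 i * fam m q'.1.1 q'.1.2 q'.2 j =
        fam m q.1.1 q.1.2 q.2 j * fam m q'.1.1 q'.1.2 q'.2 i := by
      intro i j
      apply mul_right_cancel₀ (mul_ne_zero (hg j) (hg i))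
      have e1 := g3 i j
      have e2 := g3' i j
      calc fam m q.1.1 q.1.2 q.2 i * fam m q'.1.1 q'.1.2 q'.2 j *
            (rel L j * form L j (X q) * (rel L i * form L i (X q)))
          = (fam m q.1.1 q.1.2 q.2 i * (rel L j * form L j (X q))) *
            (fam m q'.1.1 q'.1.2 q'.2 j * (rel L i * form L i (X q))) := by ring
        _ = (fam m q.1.1 q.1.2 q.2 j * (rel L i * form L i (X q))) *
            (fam m q'.1.1 q'.1.2 q'.2 i * (rel L j * form L j (X q))) := by rw [e1, ← e2]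
        _ = _ := by ring
    obtain ⟨r1, r2, r3⟩ := fam_inj m q.1.1 q.1.2 q'.1.1 q'.1.2 q.2 q'.2 b.1 c c' hpr
    exact Prod.ext (Prod.ext r1 r2) r3
  have hcard : F.card ≤ T.ncard := by
    rw [← Finset.card_image_of_injOn hinj, ← Set.ncard_coe_finset]
    exact Set.ncard_le_ncard hsub hfin
  have hPc := pairs_card Z hZ1
  rw [← hP] at hPc
  have hfinal : (Z : ℝ) ^ (k + 2) / 16 ≤ (T.ncard : ℝ) := by
    calc (Z : ℝ) ^ (k + 2) / 16 = (Z : ℝ) ^ 2 / 16 * (Z : ℝ) ^ k := by ring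
      _ ≤ (P.card : ℝ) * (Z : ℝ) ^ k :=
          mul_le_mul_of_nonneg_right hPc (by positivity)
      _ = ((P.card * Z ^ k : ℕ) : ℝ) := by push_cast; ring
      _ = (F.card : ℝ) := by rw [hFc]
      _ ≤ _ := by exact_mod_cast hcard
  have hyk : (y / 2) ^ (k + 2) = ((1 / D) ^ lam / E / 2) ^ (k + 2) *
      (B : ℝ) ^ (((k + 2 : ℕ) : ℝ) * lam) := by
    have h2 : ((B : ℝ) / D) ^ lam = (1 / D) ^ lam * (B : ℝ) ^ lam := by
      rw [← Real.mul_rpow (by positivity) hB0.le]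
      congr 1
      ring
    have h3 : (B : ℝ) ^ (((k + 2 : ℕ) : ℝ) * lam) = ((B : ℝ) ^ lam) ^ (k + 2) := by
      rw [mul_comm, Real.rpow_mul_natCast hB0.le]
    rw [h3, ← mul_pow, hy, h2]
    congr 1
    ring
  calc ((1 / D) ^ lam / E / 2) ^ (k + 2) / 16 * (B : ℝ) ^ (((k + 2 : ℕ) : ℝ) * lam)
      = (y / 2) ^ (k + 2) / 16 := by rw [hyk]; ring
    _ ≤ (Z : ℝ) ^ (k + 2) / 16 := by
        have h2 : (y / 2) ^ (k + 2) ≤ (Z : ℝ) ^ (k + 2) :=
          pow_le_pow_left₀ (div_nonneg (by linarith) (by norm_num)) hyZ _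
        linarith
    _ ≤ _ := hfinal

/-- **Lower bound.** For every `n ≥ 2`, every `n + 2` forms in general position, every finite `S`
and every `0 < lam ≤ 1` the number of points of small radical is at least `c B ^ (n lam)`. -/
theorem low_trunc (n : ℕ) (hn : 2 ≤ n) (lam : ℝ) (h0 : 0 < lam) (h1 : lam ≤ 1) (S : Finset ℕ)
    (L : Matrix (Fin (n + 2)) (Fin (n + 1)) ℤ) (hL : ∀ i, minor L i ≠ 0) :
    ∃ c : ℝ, 0 < c ∧ ∃ B₀ : ℕ, ∀ B : ℕ, B₀ ≤ B →
      c * (B : ℝ) ^ ((n : ℝ) * lam) ≤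
        ({x : Fin (n + 1) → ℤ | (∀ d : ℤ, (∀ j, d ∣ x j) → IsUnit d) ∧
          (∀ i, form L i x ≠ 0 ∧ (radS S (form L i x) : ℝ) ≤ (ht x : ℝ) ^ lam) ∧
          ht x ≤ B}.ncard : ℝ) := by
  obtain ⟨k, rfl⟩ : ∃ k, n = k + 2 := ⟨n - 2, by omega⟩
  obtain ⟨A, hA, hR⟩ := realize L hL
  refine low_trunc_aux S L hL A hA ?_ lam h0 h1
  intro u hu hp
  obtain ⟨x, hx, ⟨c, -, hc⟩, hd, hs, ⟨i, hi⟩⟩ := hR u hu hp
  refine ⟨x, hx, hd, fun i j => ?_, fun N hN => ?_, hs⟩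
  · rw [hc i, hc j]
    ring
  · exact hi.trans (Nat.mul_le_mul_left A (hN i))

end Pool.Agent.Helper97.RP.LT
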