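import Pool.Agent.Helper87.RP.Defs

/-!
RP-11 (MP_464c42_nt). The lower bound for `n + 2` forms in general position, every `n ≥ 2` and every `lam`.

The forms are `x_0, …, x_n` and `x_0 + … + x_n`; the points are `x = (- 2^m (w_1 + … + w_(n-1)), 2^m w_1, …, 2^m w_(n-1), 1)` with
`Z < w_i ≤ 2 Z`, `Z` about `B^(lam / n)`. The last two forms are `1` at `x`, the others have radicals `≤ 4 n Z`.
-/

set_option autoImplicit false

namespace Pool.Agent.Helper97.RP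

open Pool.Agent.Helper24.TU Pool.Agent.Helper87.RP

/-- The coordinate forms and their sum. -/
def LA (n : ℕ) : Matrix (Fin (n + 2)) (Fin (n + 1)) ℤ :=
  fun i j => if (i : ℕ) = n + 1 then 1 else if (i : ℕ) = (j : ℕ) then 1 else 0

theorem lin_last (n : ℕ) (x : Fin (n + 1) → ℤ) :
    lin (LA n) (Fin.last (n + 1)) x = ∑ j, x j := by
  unfold lin LA
  refine Finset.sum_congr rfl fun j _ => ?_
  rw [if_pos (Fin.val_last (n + 1)), one_mul]

theorem lin_castSucc (n : ℕ) (x : Fin (n + 1) → ℤ) (k : Fin (n + 1)) :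
    lin (LA n) k.castSucc x = x k := by
  unfold lin LA
  rw [Finset.sum_eq_single k]
  · rw [if_neg, if_pos, one_mul]
    · exact Fin.val_castSucc k
    · rw [Fin.val_castSucc]
      have := k.2
      omega
  · intro j _ hj
    rw [if_neg, if_neg, zero_mul]
    · rw [Fin.val_castSucc]
      intro h
      exact hj (Fin.ext h.symm)
    · rw [Fin.val_castSucc]
      have := k.2
      omega
  · intro h
    exact absurd (Finset.mem_univ k) h

theorem genPos_LA (n : ℕ) : GenPos (LA n) := by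
  classical
  intro e he hdet
  obtain ⟨v, hv, hMv⟩ := Matrix.exists_mulVec_eq_zero_iff.2 hdet
  have hlin : ∀ i, lin (LA n) (e i) v = 0 := by
    intro i
    have h1 := congrFun hMv i
    exact h1
  obtain ⟨k, hk⟩ : ∃ k, v k ≠ 0 := by
    by_contra hcon
    push Not at hcon
    exact hv (funext hcon)
  have hkn : ∀ i, e i ≠ k.castSucc := by
    intro i hi
    have h1 := hlin i
    rw [hi, lin_castSucc] at h1
    exact hk h1
  have himg : Finset.univ.image e = Finset.univ.erase k.castSucc := by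
    apply Finset.eq_of_subset_of_card_le
    · intro i hi
      obtain ⟨j, -, rfl⟩ := Finset.mem_image.1 hi
      exact Finset.mem_erase.2 ⟨hkn j, Finset.mem_univ _⟩
    · rw [Finset.card_erase_of_mem (Finset.mem_univ _), Finset.card_image_of_injective _ he,
        Finset.card_univ, Finset.card_univ, Fintype.card_fin, Fintype.card_fin]
      omega
  have hall : ∀ i, i ≠ k.castSucc → lin (LA n) i v = 0 := by
    intro i hi
    have h1 : i ∈ Finset.univ.image e := by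
      rw [himg]
      exact Finset.mem_erase.2 ⟨hi, Finset.mem_univ _⟩
    obtain ⟨j, -, rfl⟩ := Finset.mem_image.1 h1
    exact hlin j
  have h0 : ∀ j, j ≠ k → v j = 0 := by
    intro j hj
    have h1 := hall j.castSucc (fun h => hj (Fin.castSucc_injective _ h))
    rwa [lin_castSucc] at h1
  have h1 := hall (Fin.last (n + 1)) (fun h => by
    have h2 := congrArg Fin.val h
    rw [Fin.val_last, Fin.val_castSucc] at h2
    have := k.2
    omega)
  rw [lin_last, Finset.sum_eq_single k (fun j _ hj => h0 j hj)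
    (fun h => absurd (Finset.mem_univ k) h)] at h1
  exact hk h1

/-- The points. -/
def pt (k m : ℕ) (w : Fin k → ℕ) : Fin (k + 1 + 1) → ℤ :=
  Fin.cons (-((2 : ℤ) ^ m * ∑ i, (w i : ℤ))) (Fin.snoc (fun i => (2 : ℤ) ^ m * (w i : ℤ)) (1 : ℤ))

theorem pt_zero (k m : ℕ) (w : Fin k → ℕ) : pt k m w 0 = -((2 : ℤ) ^ m * ∑ i, (w i : ℤ)) := rfl

theorem pt_mid (k m : ℕ) (w : Fin k → ℕ) (i : Fin k) :
    pt k m w i.castSucc.succ = (2 : ℤ) ^ m * (w i : ℤ) := by
  unfold pt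
  rw [Fin.cons_succ, Fin.snoc_castSucc]

theorem pt_last (k m : ℕ) (w : Fin k → ℕ) : pt k m w (Fin.last k).succ = 1 := by
  unfold pt
  rw [Fin.cons_succ, Fin.snoc_last]

theorem pt_sum (k m : ℕ) (w : Fin k → ℕ) : ∑ j, pt k m w j = 1 := by
  rw [Fin.sum_univ_succ, Fin.sum_univ_castSucc, pt_zero, pt_last]
  simp only [pt_mid]
  rw [← Finset.mul_sum]
  ring

theorem pt_inj (k m : ℕ) : Function.Injective (pt k m) := by
  intro w w' h
  funext i
  have h1 := congrFun h i.castSucc.succ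
  rw [pt_mid, pt_mid] at h1
  have h2 : (2 : ℤ) ^ m ≠ 0 := by positivity
  exact_mod_cast mul_left_cancel₀ h2 h1

theorem radS_one (S : Finset ℕ) : radS S 1 = 1 := by
  unfold radS
  simp

theorem radS_two_pow (m u : ℕ) (hu : 1 ≤ u) : radS ∅ ((2 : ℤ) ^ m * (u : ℤ)) ≤ 2 * u := by
  classical
  unfold radS
  have h1 : ((2 : ℤ) ^ m * (u : ℤ)).natAbs = 2 ^ m * u := by
    rw [Int.natAbs_mul, Int.natAbs_pow, Int.natAbs_natCast]
    rfl
  rw [h1]
  have h2 : (2 ^ m * u).primeFactors.filter (fun p => p ∉ (∅ : Finset ℕ)) ⊆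
      (2 * u).primeFactors := by
    intro p hp
    rw [Finset.mem_filter, Nat.mem_primeFactors] at hp
    obtain ⟨⟨hpp, hpd, -⟩, -⟩ := hp
    rw [Nat.mem_primeFactors]
    refine ⟨hpp, ?_, by omega⟩
    rcases (Nat.Prime.dvd_mul hpp).1 hpd with h | h
    · exact (hpp.dvd_of_dvd_pow h).mul_right _
    · exact h.mul_left _
  calc ∏ p ∈ (2 ^ m * u).primeFactors.filter (fun p => p ∉ (∅ : Finset ℕ)), p
      ≤ ∏ p ∈ (2 * u).primeFactors, p := by
        refine Finset.prod_le_prod_of_subset_of_one_le' h2 fun p hp _ => ?_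
        exact (Nat.prime_of_mem_primeFactors hp).one_lt.le
    _ ≤ 2 * u := Nat.le_of_dvd (by omega) (Nat.prod_primeFactors_dvd _)

theorem radS_neg (S : Finset ℕ) (a : ℤ) : radS S (-a) = radS S a := by
  unfold radS
  rw [Int.natAbs_neg]

theorem finite_pts {r n : ℕ} (S : Finset ℕ) (L : Matrix (Fin r) (Fin (n + 1)) ℤ) (A lam : ℝ) (B : ℕ) :
    (pts S L A lam B).Finite := by
  apply (Set.finite_Icc (fun _ : Fin (n + 1) => (-(B : ℤ))) (fun _ => (B : ℤ))).subset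
  intro x hx
  have hx2 : ∀ j, (x j).natAbs ≤ B := fun j => (le_ht x j).trans hx.2.2.2
  refine ⟨fun j => ?_, fun j => ?_⟩
  · have := hx2 j
    change -(B : ℤ) ≤ x j
    omega
  · have := hx2 j
    change x j ≤ (B : ℤ)
    omega

/-- Membership of the points. -/
theorem pt_mem (k m Z B : ℕ) (hk : 1 ≤ k) (hZ : 1 ≤ Z) (lam : ℝ) (w : Fin k → ℕ)
    (hw : ∀ i, Z + 1 ≤ w i ∧ w i ≤ 2 * Z) (hB : 2 ^ m * (2 * k * Z) ≤ B)
    (hlam : ((4 * (k : ℝ) * Z) ^ (k + 1) : ℝ) ≤ ((2 ^ m * (k * Z) : ℕ) : ℝ) ^ lam) (hl0 : 0 ≤ lam) :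
    pt k m w ∈ pts ∅ (LA (k + 1)) 1 lam B := by
  classical
  have hw1 : ∀ i, 1 ≤ w i := fun i => by have := hw i; omega
  have hsumN : ∑ i, w i ≤ k * (2 * Z) := by
    calc ∑ i, w i ≤ ∑ _i : Fin k, 2 * Z := Finset.sum_le_sum fun i _ => (hw i).2
      _ = k * (2 * Z) := by rw [Finset.sum_const, Finset.card_univ, Fintype.card_fin, smul_eq_mul]
  have hsumL : k * Z ≤ ∑ i, w i := by
    calc k * Z = ∑ _i : Fin k, Z := by
          rw [Finset.sum_const, Finset.card_univ, Fintype.card_fin, smul_eq_mul]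
      _ ≤ ∑ i, w i := Finset.sum_le_sum fun i _ => by have := hw i; omega
  have hsum1 : 1 ≤ ∑ i, w i := le_trans (Nat.mul_pos hk hZ) hsumL
  have hcast : (∑ i, (w i : ℤ)) = ((∑ i, w i : ℕ) : ℤ) := by push_cast; rfl
  have hne : ∀ j, pt k m w j ≠ 0 := by
    intro j
    refine Fin.cases ?_ (fun j' => ?_) j
    · rw [pt_zero, hcast]
      exact neg_ne_zero.2 (mul_ne_zero (by positivity) (by exact_mod_cast (by omega : ∑ i, w i ≠ 0)))
    · refine Fin.lastCases ?_ (fun i => ?_) j'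
      · rw [pt_last]; exact one_ne_zero
      · rw [pt_mid]
        exact mul_ne_zero (by positivity) (by exact_mod_cast (by have := hw1 i; omega : w i ≠ 0))
  have hht : 2 ^ m * (k * Z) ≤ ht (pt k m w) := by
    refine le_trans ?_ (le_ht (pt k m w) 0)
    rw [pt_zero, hcast, Int.natAbs_neg, Int.natAbs_mul, Int.natAbs_pow, Int.natAbs_natCast]
    exact Nat.mul_le_mul_left _ hsumL
  refine ⟨?_, ?_, ?_, ?_⟩
  · intro d hd
    have h1 := hd (Fin.last k).succ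
    rw [pt_last] at h1
    exact isUnit_of_dvd_one h1
  · intro i
    refine Fin.lastCases ?_ (fun j => ?_) i
    · rw [lin_last, pt_sum]; exact one_ne_zero
    · rw [lin_castSucc]; exact hne j
  · have e1 : ∏ i, (radS ∅ (lin (LA (k + 1)) i (pt k m w)) : ℝ) =
        (radS ∅ (pt k m w 0) : ℝ) * ∏ i : Fin k, (radS ∅ ((2 : ℤ) ^ m * (w i : ℤ)) : ℝ) := by
      rw [Fin.prod_univ_castSucc, lin_last, pt_sum, radS_one, Nat.cast_one, mul_one]
      simp only [lin_castSucc]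
      rw [Fin.prod_univ_succ, Fin.prod_univ_castSucc, pt_last, radS_one, Nat.cast_one, mul_one]
      simp only [pt_mid]
    have h0 : (radS ∅ (pt k m w 0) : ℝ) ≤ 4 * (k : ℝ) * Z := by
      rw [pt_zero, radS_neg, hcast]
      have h1 := radS_two_pow m (∑ i, w i) hsum1
      have h2 : radS ∅ ((2 : ℤ) ^ m * ((∑ i, w i : ℕ) : ℤ)) ≤ 2 * (k * (2 * Z)) :=
        h1.trans (Nat.mul_le_mul_left _ hsumN)
      calc (radS ∅ ((2 : ℤ) ^ m * ((∑ i, w i : ℕ) : ℤ)) : ℝ) ≤ ((2 * (k * (2 * Z)) : ℕ) : ℝ) := by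
            exact_mod_cast h2
        _ = 4 * (k : ℝ) * Z := by push_cast; ring
    have hkR : (1 : ℝ) ≤ k := by exact_mod_cast hk
    have hi : ∀ i : Fin k, (radS ∅ ((2 : ℤ) ^ m * (w i : ℤ)) : ℝ) ≤ 4 * (k : ℝ) * Z := by
      intro i
      have h1 := radS_two_pow m (w i) (hw1 i)
      have h2 : (radS ∅ ((2 : ℤ) ^ m * (w i : ℤ)) : ℝ) ≤ ((2 * (2 * Z) : ℕ) : ℝ) := by
        exact_mod_cast h1.trans (Nat.mul_le_mul_left _ (hw i).2)
      have hZ0 : (0 : ℝ) ≤ Z := Nat.cast_nonneg _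
      calc (radS ∅ ((2 : ℤ) ^ m * (w i : ℤ)) : ℝ) ≤ ((2 * (2 * Z) : ℕ) : ℝ) := h2
        _ = 4 * 1 * (Z : ℝ) := by push_cast; ring
        _ ≤ 4 * (k : ℝ) * Z := by gcongr
    rw [e1, one_mul]
    calc (radS ∅ (pt k m w 0) : ℝ) * ∏ i : Fin k, (radS ∅ ((2 : ℤ) ^ m * (w i : ℤ)) : ℝ)
        ≤ (4 * (k : ℝ) * Z) * ∏ _i : Fin k, (4 * (k : ℝ) * Z) := by
          refine mul_le_mul h0 (Finset.prod_le_prod (fun i _ => Nat.cast_nonneg _)
            fun i _ => hi i) (Finset.prod_nonneg fun i _ => Nat.cast_nonneg _) (by positivity)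
      _ = (4 * (k : ℝ) * Z) ^ (k + 1) := by
          rw [Finset.prod_const, Finset.card_univ, Fintype.card_fin]
          ring
      _ ≤ ((2 ^ m * (k * Z) : ℕ) : ℝ) ^ lam := hlam
      _ ≤ (ht (pt k m w) : ℝ) ^ lam :=
          Real.rpow_le_rpow (Nat.cast_nonneg _) (by exact_mod_cast hht) hl0
  · apply ht_le
    intro j
    have hB1 : 2 ^ m * (2 * (k * Z)) ≤ B := by
      have : 2 ^ m * (2 * (k * Z)) = 2 ^ m * (2 * k * Z) := by ring
      rw [this]; exact hB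
    refine Fin.cases ?_ (fun j' => ?_) j
    · rw [pt_zero, hcast, Int.natAbs_neg, Int.natAbs_mul, Int.natAbs_pow, Int.natAbs_natCast]
      refine le_trans (Nat.mul_le_mul_left _ hsumN) ?_
      have : Int.natAbs 2 ^ m * (k * (2 * Z)) = 2 ^ m * (2 * (k * Z)) := by
        change 2 ^ m * (k * (2 * Z)) = 2 ^ m * (2 * (k * Z))
        ring
      rw [this]
      exact hB1
    · refine Fin.lastCases ?_ (fun i => ?_) j'
      · rw [pt_last]
        have h1 : 1 ≤ 2 ^ m * (2 * (k * Z)) :=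
          Nat.mul_pos (by positivity) (Nat.mul_pos (by norm_num) (Nat.mul_pos hk hZ))
        exact h1.trans hB1
      · rw [pt_mid, Int.natAbs_mul, Int.natAbs_pow, Int.natAbs_natCast]
        change 2 ^ m * w i ≤ B
        refine le_trans (Nat.mul_le_mul_left _ ?_) hB1
        calc w i ≤ 2 * Z := (hw i).2
          _ = 2 * (1 * Z) := by ring
          _ ≤ 2 * (k * Z) := Nat.mul_le_mul_left _ (Nat.mul_le_mul_right _ hk)

theorem low_all (n : ℕ) (hn : 2 ≤ n) (lam : ℝ) (h0 : 0 < lam) (h1 : lam ≤ n) :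
    GenPos (LA n) ∧ ∃ c : ℝ, 0 < c ∧ ∃ B0 : ℕ, ∀ B : ℕ, B0 ≤ B →
      c * (B : ℝ) ^ (((n : ℝ) - 1) / n * lam) ≤ ((pts ∅ (LA n) 1 lam B).ncard : ℝ) := by
  classical
  refine ⟨genPos_LA n, ?_⟩
  obtain ⟨k, rfl⟩ : ∃ k, n = k + 1 := ⟨n - 1, by omega⟩
  have hk : 1 ≤ k := by omega
  have hkR : (1 : ℝ) ≤ k := by exact_mod_cast hk
  have hn0 : (0 : ℝ) < ((k + 1 : ℕ) : ℝ) := by positivity
  obtain ⟨μ, hμ⟩ : ∃ μ : ℝ, μ = lam / ((k + 1 : ℕ) : ℝ) := ⟨_, rfl⟩
  have hμ0 : 0 < μ := by rw [hμ]; positivity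
  have hμ1 : μ ≤ 1 := by rw [hμ, div_le_one hn0]; exact h1
  have hlam : lam = μ * ((k + 1 : ℕ) : ℝ) := by rw [hμ]; field_simp
  -- a threshold
  obtain ⟨B1, hB1⟩ : ∃ B1 : ℕ, ∀ B : ℕ, B1 ≤ B → 4 * (k : ℝ) ≤ ((B : ℝ) / 4) ^ μ := by
    have h2 : Filter.Tendsto (fun B : ℕ => ((B : ℝ) / 4) ^ μ) Filter.atTop Filter.atTop :=
      (tendsto_rpow_atTop hμ0).comp (tendsto_natCast_atTop_atTop.atTop_div_const (by norm_num))
    obtain ⟨B1, hB1⟩ := Filter.eventually_atTop.1 (h2.eventually_ge_atTop (4 * (k : ℝ)))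
    exact ⟨B1, hB1⟩
  refine ⟨(1 / (8 * (k : ℝ))) ^ k * (1 / 4 : ℝ) ^ (μ * k), by positivity, max B1 4, ?_⟩
  intro B hB
  have hBB1 : B1 ≤ B := (le_max_left _ _).trans hB
  have hB4 : 4 ≤ B := (le_max_right _ _).trans hB
  have hB4R : (4 : ℝ) ≤ B := by exact_mod_cast hB4
  have hB0 : (0 : ℝ) < B := by linarith
  have hq1 : (1 : ℝ) ≤ (B : ℝ) / 4 := by linarith
  obtain ⟨y, hy⟩ : ∃ y : ℝ, y = ((B : ℝ) / 4) ^ μ := ⟨_, rfl⟩
  have hy4 : 4 * (k : ℝ) ≤ y := by rw [hy]; exact hB1 B hBB1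
  have hyB : y ≤ (B : ℝ) / 4 := by
    rw [hy]
    calc ((B : ℝ) / 4) ^ μ ≤ ((B : ℝ) / 4) ^ (1 : ℝ) :=
          Real.rpow_le_rpow_of_exponent_le hq1 hμ1
      _ = (B : ℝ) / 4 := Real.rpow_one _
  obtain ⟨Z, hZ⟩ : ∃ Z : ℕ, Z = ⌊y / (4 * k)⌋₊ := ⟨_, rfl⟩
  have hz1 : (1 : ℝ) ≤ y / (4 * k) := by rw [le_div_iff₀ (by positivity)]; linarith
  have hZ1 : 1 ≤ Z := by rw [hZ]; exact Nat.le_floor (by exact_mod_cast hz1)
  have hZy : (Z : ℝ) ≤ y / (4 * k) := by rw [hZ]; exact Nat.floor_le (by linarith)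
  have hZl : y / (4 * k) < Z + 1 := by rw [hZ]; exact Nat.lt_floor_add_one _
  have hZ1R : (1 : ℝ) ≤ Z := by exact_mod_cast hZ1
  have hZ8 : y / (8 * k) ≤ Z := by
    have : y / (8 * k) = y / (4 * k) / 2 := by field_simp; ring
    rw [this]
    linarith
  have h4Z : 4 * (k : ℝ) * Z ≤ y := by
    rw [le_div_iff₀ (by positivity)] at hZy
    linarith
  have hkZ : 1 ≤ k * Z := Nat.mul_pos hk hZ1
  have h2kZ : 2 * k * Z ≤ B := by
    have : ((2 * k * Z : ℕ) : ℝ) ≤ B := by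
      push_cast
      nlinarith
    exact_mod_cast this
  obtain ⟨m, hm⟩ : ∃ m : ℕ, m = Nat.log 2 (B / (2 * k * Z)) := ⟨_, rfl⟩
  have hpos : 0 < 2 * k * Z := by
    have : 2 * k * Z = 2 * (k * Z) := by ring
    omega
  have hdiv : B / (2 * k * Z) ≠ 0 := by
    have := Nat.div_pos h2kZ hpos
    omega
  have hm1 : 2 ^ m * (2 * k * Z) ≤ B := by
    have h2 : 2 ^ m ≤ B / (2 * k * Z) := by rw [hm]; exact Nat.pow_log_le_self 2 hdiv
    exact (Nat.le_div_iff_mul_le hpos).1 h2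
  have hm2 : (B : ℝ) / 4 ≤ ((2 ^ m * (k * Z) : ℕ) : ℝ) := by
    have h2 : B / (2 * k * Z) < 2 ^ (m + 1) := by
      rw [hm]; exact Nat.lt_pow_succ_log_self (by norm_num) _
    have h3 : B < 2 ^ (m + 1) * (2 * k * Z) := (Nat.div_lt_iff_lt_mul hpos).1 h2
    have h4 : (B : ℝ) < ((2 ^ (m + 1) * (2 * k * Z) : ℕ) : ℝ) := by exact_mod_cast h3
    push_cast at h4 ⊢
    rw [pow_succ] at h4
    linarith
  have hcond : ((4 * (k : ℝ) * Z) ^ (k + 1) : ℝ) ≤ ((2 ^ m * (k * Z) : ℕ) : ℝ) ^ lam := by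
    calc ((4 * (k : ℝ) * Z) ^ (k + 1) : ℝ) ≤ y ^ (k + 1) :=
          pow_le_pow_left₀ (by positivity) h4Z _
      _ = ((B : ℝ) / 4) ^ lam := by
          rw [hy, hlam, Real.rpow_mul (by linarith) μ, Real.rpow_natCast]
      _ ≤ _ := Real.rpow_le_rpow (by linarith) hm2 h0.le
  -- the points
  obtain ⟨F, hF⟩ : ∃ F : Finset (Fin k → ℕ), F = Fintype.piFinset (fun _ => Finset.Icc (Z + 1) (2 * Z)) :=
    ⟨_, rfl⟩
  have hFc : F.card = Z ^ k := by
    rw [hF, Fintype.card_piFinset, Finset.prod_const, Finset.card_univ, Fintype.card_fin, Nat.card_Icc]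
    congr 1
    omega
  have hsub : ((F.image (pt k m) : Finset (Fin (k + 1 + 1) → ℤ)) : Set (Fin (k + 1 + 1) → ℤ)) ⊆
      pts ∅ (LA (k + 1)) 1 lam B := by
    intro x hx
    rw [Finset.mem_coe, Finset.mem_image] at hx
    obtain ⟨w, hw, rfl⟩ := hx
    rw [hF, Fintype.mem_piFinset] at hw
    exact pt_mem k m Z B hk hZ1 lam w (fun i => Finset.mem_Icc.1 (hw i)) hm1 hcond h0.le
  have hcard : Z ^ k ≤ (pts ∅ (LA (k + 1)) 1 lam B).ncard := by
    rw [← hFc, ← Finset.card_image_of_injective F (pt_inj k m), ← Set.ncard_coe_finset]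
    exact Set.ncard_le_ncard hsub (finite_pts _ _ _ _ _)
  have hexp : (((k + 1 : ℕ) : ℝ) - 1) / ((k + 1 : ℕ) : ℝ) * lam = μ * k := by
    rw [hlam]
    push_cast
    field_simp
    ring
  rw [hexp]
  have hyk : y ^ k = (1 / 4 : ℝ) ^ (μ * k) * (B : ℝ) ^ (μ * k) := by
    rw [← Real.mul_rpow (by norm_num) hB0.le, hy, ← Real.rpow_mul_natCast (by linarith)]
    congr 1
    ring
  calc (1 / (8 * (k : ℝ))) ^ k * (1 / 4 : ℝ) ^ (μ * k) * (B : ℝ) ^ (μ * k)
      = (y / (8 * k)) ^ k := by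
        rw [mul_assoc, ← hyk, ← mul_pow]
        congr 1
        ring
    _ ≤ (Z : ℝ) ^ k := by
        refine pow_le_pow_left₀ (div_nonneg (by linarith) (by positivity)) hZ8 k
    _ = ((Z ^ k : ℕ) : ℝ) := by push_cast; rfl
    _ ≤ ((pts ∅ (LA (k + 1)) 1 lam B).ncard : ℝ) := by exact_mod_cast hcard

end Pool.Agent.Helper97.RP
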