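import Pool.Agent.Helper97.RP.LowTrunc
import Pool.Agent.Helper87.RP.Defs

/-!
RP-12 (MP_464c42_nt). The lower bound for `r` forms in general position, `n + 2 ≤ r ≤ 2 n`.

The points lie on the lines which join the common zero `p` of the first `n` forms to a common zero
of the other `r - n` forms: `x = 2^m N q + p`, `N = ℓ_(n+1)(p)`.
-/

set_option autoImplicit false

open Matrix

open Pool.Agent.Helper24.TU Pool.Agent.Helper87.RP

namespace Pool.Agent.Helper97.RP.LR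

theorem lin_comb {r n : ℕ} (L : Matrix (Fin r) (Fin (n + 1)) ℤ) (i : Fin r) (c : ℤ)
    (x y : Fin (n + 1) → ℤ) : lin L i (fun j => c * x j + y j) = c * lin L i x + lin L i y := by
  unfold lin
  rw [Finset.mul_sum, ← Finset.sum_add_distrib]
  refine Finset.sum_congr rfl fun j _ => ?_
  ring

theorem finite_pts {r n : ℕ} (S : Finset ℕ) (L : Matrix (Fin r) (Fin (n + 1)) ℤ) (A lam : ℝ) (B : ℕ) :
    (pts S L A lam B).Finite := by
  apply (Set.finite_Icc (fun _ : Fin (n + 1) => (-(B : ℤ))) (fun _ => (B : ℤ))).subset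
  intro x hx
  have hx2 : ∀ j, (x j).natAbs ≤ B := fun j => (le_ht x j).trans hx.2.2.2
  refine ⟨fun j => ?_, fun j => ?_⟩
  · have := hx2 j
    change -(B : ℤ) ≤ x j
    omega
  · have := hx2 j
    change x j ≤ (B : ℤ)
    omega

theorem gp {r n : ℕ} (L : Matrix (Fin r) (Fin (n + 1)) ℤ) (hL : GenPos L) (v : Fin (n + 1) → ℤ)
    (hv : v ≠ 0) (e : Fin (n + 1) → Fin r) (he : Function.Injective e) :
    ∃ a, lin L (e a) v ≠ 0 := by
  by_contra h
  push Not at h
  apply hL e he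
  exact Matrix.exists_mulVec_eq_zero_iff.1 ⟨v, hv, funext h⟩

theorem prim_kernel {n : ℕ} (M : Matrix (Fin (n + 1)) (Fin (n + 1)) ℤ) (h : M.det = 0) :
    ∃ p : Fin (n + 1) → ℤ, (∀ d : ℤ, (∀ j, d ∣ p j) → IsUnit d) ∧ M *ᵥ p = 0 := by
  obtain ⟨v, hv, hMv⟩ := Matrix.exists_mulVec_eq_zero_iff.2 h
  obtain ⟨p, hp1, hp2⟩ := Finset.extract_gcd v (Finset.univ_nonempty (α := Fin (n + 1)))
  have hg : Finset.univ.gcd v ≠ 0 := by
    intro h0
    apply hv
    funext j
    exact Finset.gcd_eq_zero_iff.1 h0 j (Finset.mem_univ j)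
  refine ⟨p, fun d hd => ?_, ?_⟩
  · have h1 : d ∣ Finset.univ.gcd p := Finset.dvd_gcd fun j _ => hd j
    rw [hp2] at h1
    exact isUnit_of_dvd_one h1
  · funext i
    have h1 := congrFun hMv i
    have h2 : (M *ᵥ v) i = Finset.univ.gcd v * (M *ᵥ p) i := by
      simp only [Matrix.mulVec, dotProduct]
      rw [Finset.mul_sum]
      refine Finset.sum_congr rfl fun j _ => ?_
      rw [hp1 j (Finset.mem_univ j)]
      ring
    rw [h2] at h1
    exact (mul_eq_zero.1 h1).resolve_left hg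

section

variable {k s : ℕ}

/-- The last `n + 1` forms, `n = k + s`. -/
def ee (k s : ℕ) (a : Fin (k + s + 1)) : Fin (k + s + (s + 1)) := ⟨a + s, by have := a.2; omega⟩

theorem ee_inj : Function.Injective (ee k s) := by
  intro a b h
  have h1 := congrArg Fin.val h
  simp only [ee] at h1
  exact Fin.ext (by omega)

/-- The coordinates of the parameter. -/
def WW (w : Fin k → ℕ) (a : Fin (k + s + 1)) : ℤ := if h : (a : ℕ) < k then (w ⟨a, h⟩ : ℤ) else 0

theorem lin_adj (L : Matrix (Fin (k + s + (s + 1))) (Fin (k + s + 1)) ℤ) (W : Fin (k + s + 1) → ℤ)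
    (a : Fin (k + s + 1)) : lin L (ee k s a) ((L.submatrix (ee k s) id).adjugate *ᵥ W) =
      (L.submatrix (ee k s) id).det * W a := by
  have h1 : (L.submatrix (ee k s) id) *ᵥ ((L.submatrix (ee k s) id).adjugate *ᵥ W) =
      (L.submatrix (ee k s) id).det • W := by
    rw [Matrix.mulVec_mulVec, Matrix.mul_adjugate, Matrix.smul_mulVec, Matrix.one_mulVec]
  exact congrFun h1 a

theorem lin_sum {r n : ℕ} (L : Matrix (Fin r) (Fin (n + 1)) ℤ)
    (Q : Matrix (Fin (n + 1)) (Fin (n + 1)) ℤ) (i : Fin r) (W : Fin (n + 1) → ℤ) :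
    lin L i (Q *ᵥ W) = ∑ a, lin L i (fun j => Q j a) * W a := by
  unfold lin
  simp only [Matrix.mulVec, dotProduct, Finset.mul_sum, Finset.sum_mul]
  rw [Finset.sum_comm]
  refine Finset.sum_congr rfl fun a _ => Finset.sum_congr rfl fun j _ => ?_
  ring

/-- The data of the arrangement. -/
theorem data (L : Matrix (Fin (k + s + (s + 1))) (Fin (k + s + 1)) ℤ)
    (hL : GenPos L) :
    ∃ (p : Fin (k + s + 1) → ℤ) (Q : Matrix (Fin (k + s + 1)) (Fin (k + s + 1)) ℤ) (D : ℤ),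
      (∀ d : ℤ, (∀ j, d ∣ p j) → IsUnit d) ∧ D ≠ 0 ∧
      (∀ i : Fin (k + s), lin L (Fin.castAdd (s + 1) i) p = 0) ∧
      (∀ i : Fin (s + 1), lin L (Fin.natAdd (k + s) i) p ≠ 0) ∧
      (∀ W : Fin (k + s + 1) → ℤ, ∀ a, lin L (ee k s a) (Q *ᵥ W) = D * W a) ∧
      (∀ i : Fin (k + s), (i : ℕ) < s → lin L (Fin.castAdd (s + 1) i) (fun j => Q j 0) ≠ 0) := by
  classical
  obtain ⟨M0, hM0⟩ : ∃ M0 : Matrix (Fin (k + s + 1)) (Fin (k + s + 1)) ℤ, M0 =
    fun a j => if h : a.val < k + s then L (Fin.castAdd (s + 1) ⟨a.val, h⟩) j else 0 := ⟨_, rfl⟩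
  have hdet : M0.det = 0 := by
    apply Matrix.det_eq_zero_of_row_eq_zero (Fin.last (k + s))
    intro j
    rw [hM0]
    simp
  obtain ⟨p, hp, hMp⟩ := prim_kernel M0 hdet
  have hp0 : p ≠ 0 := by
    intro h0
    have h1 : IsUnit (2 : ℤ) := hp 2 fun j => by rw [h0]; exact dvd_zero _
    rw [Int.isUnit_iff] at h1
    omega
  have hp1 : ∀ i : Fin (k + s), lin L (Fin.castAdd (s + 1) i) p = 0 := by
    intro i
    have h1 := congrFun hMp i.castSucc
    rw [hM0] at h1
    have h2 : ((i.castSucc : Fin (k + s + 1)) : ℕ) < k + s := i.2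
    simp only [Matrix.mulVec, dotProduct, dif_pos h2, Pi.zero_apply] at h1
    exact h1
  have hp2 : ∀ i : Fin (s + 1), lin L (Fin.natAdd (k + s) i) p ≠ 0 := by
    intro i
    obtain ⟨e, he⟩ : ∃ e : Fin (k + s + 1) → Fin (k + s + (s + 1)), e =
      fun a => if h : a.val < k + s then Fin.castAdd (s + 1) ⟨a.val, h⟩ else Fin.natAdd (k + s) i :=
      ⟨_, rfl⟩
    have hinj : Function.Injective e := by
      intro a b hab
      rw [he] at hab
      simp only at hab
      have ha := a.2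
      have hb := b.2
      apply Fin.ext
      split_ifs at hab with h1 h2 h2
      · have h3 := congrArg Fin.val hab
        simpa using h3
      · have h3 := congrArg Fin.val hab
        simp only [Fin.val_castAdd, Fin.val_natAdd] at h3
        omega
      · have h3 := congrArg Fin.val hab
        simp only [Fin.val_castAdd, Fin.val_natAdd] at h3
        omega
      · omega
    obtain ⟨a, ha⟩ := gp L hL p hp0 e hinj
    rw [he] at ha
    simp only at ha
    split_ifs at ha with h1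
    · exact absurd (hp1 _) ha
    · exact ha
  have hD : (L.submatrix (ee k s) id).det ≠ 0 := hL _ ee_inj
  refine ⟨p, (L.submatrix (ee k s) id).adjugate, (L.submatrix (ee k s) id).det, hp, hD, hp1, hp2,
    fun W a => lin_adj L W a, ?_⟩
  intro i hi
  obtain ⟨v, hv⟩ : ∃ v : Fin (k + s + 1) → ℤ, v =
    fun j => (L.submatrix (ee k s) id).adjugate j 0 := ⟨_, rfl⟩
  rw [← hv]
  have hvW : v = (L.submatrix (ee k s) id).adjugate *ᵥ (Pi.single 0 1) := by
    rw [hv]
    funext j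
    rw [Matrix.mulVec_single_one]
    rfl
  have hv0 : lin L (ee k s 0) v ≠ 0 := by
    rw [hvW, lin_adj, Pi.single_eq_same, mul_one]
    exact hD
  have hvne : v ≠ 0 := by
    intro h0
    apply hv0
    rw [h0]
    unfold lin
    simp
  obtain ⟨e, he⟩ : ∃ e : Fin (k + s + 1) → Fin (k + s + (s + 1)), e =
    fun a => if a = 0 then Fin.castAdd (s + 1) i else ee k s a := ⟨_, rfl⟩
  have hinj : Function.Injective e := by
    intro a b hab
    rw [he] at hab
    simp only at hab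
    split_ifs at hab with h1 h2 h2
    · rw [h1, h2]
    · have h3 := congrArg Fin.val hab
      simp only [Fin.val_castAdd, ee] at h3
      omega
    · have h3 := congrArg Fin.val hab
      simp only [Fin.val_castAdd, ee] at h3
      omega
    · exact ee_inj hab
  obtain ⟨a, ha⟩ := gp L hL v hvne e hinj
  rw [he] at ha
  simp only at ha
  split_ifs at ha with h1
  · exact ha
  · exfalso
    apply ha
    rw [hvW, lin_adj, Pi.single_eq_of_ne h1, mul_zero]

/-- The points, with all the bounds. -/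
theorem key (hk : 1 ≤ k) (S : Finset ℕ)
    (L : Matrix (Fin (k + s + (s + 1))) (Fin (k + s + 1)) ℤ) (hL : GenPos L) :
    ∃ Kc : ℕ, 1 ≤ Kc ∧ ∀ m Z : ℕ, 1 ≤ Z → ∃ T : Finset (Fin (k + s + 1) → ℤ), Z ^ k ≤ T.card ∧
      ∀ x ∈ T, (∀ d : ℤ, (∀ j, d ∣ x j) → IsUnit d) ∧ (∀ i, lin L i x ≠ 0) ∧
        (∏ i, radS S (lin L i x) ≤ Kc * Z ^ (k + s)) ∧ ht x ≤ Kc * (2 ^ m * Z) ∧
        2 ^ m * Z ≤ Kc * ht x := by
  classical
  obtain ⟨p, Q, D, hp, hD, hp1, hp2, hQ, hc0⟩ := data L hL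
  obtain ⟨N, hN⟩ : ∃ N : ℤ, N = lin L (Fin.natAdd (k + s) (0 : Fin (s + 1))) p := ⟨_, rfl⟩
  have hN0 : N ≠ 0 := by rw [hN]; exact hp2 0
  have hN1 : 1 ≤ N.natAbs := Nat.one_le_iff_ne_zero.2 (Int.natAbs_ne_zero.2 hN0)
  obtain ⟨K, hK⟩ : ∃ K : ℕ, K = 1 + ∑ i, ∑ a, (lin L i (fun j => Q j a)).natAbs := ⟨_, rfl⟩
  have hK1 : 1 ≤ K := by omega
  have hKi : ∀ i, ∑ a, (lin L i (fun j => Q j a)).natAbs ≤ K := by
    intro i
    rw [hK]
    exact (Finset.single_le_sum (f := fun i => ∑ a, (lin L i (fun j => Q j a)).natAbs)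
      (fun _ _ => Nat.zero_le _) (Finset.mem_univ i)).trans (Nat.le_add_left _ _)
  obtain ⟨P0, hP0⟩ : ∃ P0 : ℕ, P0 = ∑ i, (lin L i p).natAbs := ⟨_, rfl⟩
  have hPi : ∀ i, (lin L i p).natAbs ≤ P0 := by
    intro i
    rw [hP0]
    exact Finset.single_le_sum (f := fun i => (lin L i p).natAbs)
      (fun _ _ => Nat.zero_le _) (Finset.mem_univ i)
  obtain ⟨Cp, hCp⟩ : ∃ Cp : ℕ, Cp = ∑ j, (p j).natAbs := ⟨_, rfl⟩
  have hCpj : ∀ j, (p j).natAbs ≤ Cp := by
    intro j
    rw [hCp]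
    exact Finset.single_le_sum (f := fun j => (p j).natAbs)
      (fun _ _ => Nat.zero_le _) (Finset.mem_univ j)
  obtain ⟨Cq, hCq⟩ : ∃ Cq : ℕ, Cq = ∑ j, ∑ a, (Q j a).natAbs := ⟨_, rfl⟩
  have hCqj : ∀ j, ∑ a, (Q j a).natAbs ≤ Cq := by
    intro j
    rw [hCq]
    exact Finset.single_le_sum (f := fun j => ∑ a, (Q j a).natAbs)
      (fun _ _ => Nat.zero_le _) (Finset.mem_univ j)
  obtain ⟨CL, hCL⟩ : ∃ CL : ℕ, CL = ∑ i, ∑ j, (L i j).natAbs := ⟨_, rfl⟩
  have hCLi : ∀ i, ∑ j, (L i j).natAbs ≤ CL := by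
    intro i
    rw [hCL]
    exact Finset.single_le_sum (f := fun i => ∑ j, (L i j).natAbs)
      (fun _ _ => Nat.zero_le _) (Finset.mem_univ i)
  obtain ⟨C1, hC1⟩ : ∃ C1 : ℕ, C1 = 2 * (N.natAbs * (K * (2 * K))) := ⟨_, rfl⟩
  obtain ⟨C2, hC2⟩ : ∃ C2 : ℕ, C2 = N.natAbs * (Cq * (2 * K)) + Cp := ⟨_, rfl⟩
  obtain ⟨Kc, hKc⟩ : ∃ Kc : ℕ, Kc = C1 ^ (k + s) * P0 ^ (s + 1) + C2 + CL + 1 := ⟨_, rfl⟩
  refine ⟨Kc, by omega, fun m Z hZ => ?_⟩
  have hZK : Z ≤ K * Z := Nat.le_mul_of_pos_left Z hK1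
  obtain ⟨F, hF⟩ : ∃ F : Finset (Fin k → ℕ), F = Fintype.piFinset
    (fun i : Fin k => if (i : ℕ) = 0 then Finset.Ioc (K * Z) (2 * (K * Z)) else Finset.Icc 1 Z) :=
    ⟨_, rfl⟩
  have hFc : Z ^ k ≤ F.card := by
    rw [hF, Fintype.card_piFinset]
    calc Z ^ k = ∏ _i : Fin k, Z := by
          rw [Finset.prod_const, Finset.card_univ, Fintype.card_fin]
      _ ≤ _ := by
          apply Finset.prod_le_prod'
          intro i _
          split_ifs
          · rw [Nat.card_Ioc]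
            omega
          · rw [Nat.card_Icc]
            omega
  have hmem : ∀ w ∈ F, (K * Z < w ⟨0, hk⟩) ∧ (∀ i, 1 ≤ w i ∧ w i ≤ 2 * (K * Z)) ∧
      (∀ i : Fin k, (i : ℕ) ≠ 0 → w i ≤ Z) := by
    intro w hw
    rw [hF, Fintype.mem_piFinset] at hw
    refine ⟨?_, fun i => ?_, fun i hi => ?_⟩
    · have h1 := hw ⟨0, hk⟩
      rw [if_pos rfl, Finset.mem_Ioc] at h1
      exact h1.1
    · have h1 := hw i
      split_ifs at h1
      · rw [Finset.mem_Ioc] at h1
        omega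
      · rw [Finset.mem_Icc] at h1
        omega
    · have h1 := hw i
      rw [if_neg hi, Finset.mem_Icc] at h1
      exact h1.2
  obtain ⟨X, hX⟩ : ∃ X : (Fin k → ℕ) → (Fin (k + s + 1) → ℤ), X =
    fun w j => (2 ^ m * N) * (Q *ᵥ WW w) j + p j := ⟨_, rfl⟩
  have hval : ∀ w i, lin L i (X w) = (2 ^ m * N) * lin L i (Q *ᵥ WW w) + lin L i p := by
    intro w i
    rw [hX]
    exact lin_comb L i (2 ^ m * N) (Q *ᵥ WW w) p
  have h2m : (2 : ℤ) ^ m ≠ 0 := pow_ne_zero _ (by norm_num)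
  have h2mN : (2 : ℤ) ^ m * N ≠ 0 := mul_ne_zero h2m hN0
  have hnat : ∀ y : ℤ, ((2 ^ m * N) * y).natAbs = 2 ^ m * N.natAbs * y.natAbs := by
    intro y
    rw [Int.natAbs_mul, Int.natAbs_mul, Int.natAbs_pow]
    rfl
  -- the last forms
  have hlast : ∀ w (i : Fin (s + 1)), lin L (Fin.natAdd (k + s) i) (X w) =
      lin L (Fin.natAdd (k + s) i) p := by
    intro w i
    have h1 : Fin.natAdd (k + s) i = ee k s ⟨k + i, by have := i.2; omega⟩ := by
      apply Fin.ext
      simp only [Fin.val_natAdd, ee]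
      omega
    have h2 : lin L (Fin.natAdd (k + s) i) (Q *ᵥ WW w) = 0 := by
      rw [h1, hQ]
      unfold WW
      rw [dif_neg (by simp), mul_zero]
    rw [hval, h2, mul_zero, zero_add]
  -- the first forms
  have hfirst : ∀ w (i : Fin (k + s)), lin L (Fin.castAdd (s + 1) i) (X w) =
      (2 ^ m * N) * lin L (Fin.castAdd (s + 1) i) (Q *ᵥ WW w) := by
    intro w i
    rw [hval, hp1, add_zero]
  have hWle : ∀ w ∈ F, ∀ a, (WW (s := s) w a).natAbs ≤ 2 * (K * Z) := by
    intro w hw a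
    unfold WW
    split_ifs with h
    · rw [Int.natAbs_natCast]
      exact ((hmem w hw).2.1 _).2
    · simp
  have hWsucc : ∀ w ∈ F, ∀ a : Fin (k + s), (WW (s := s) w a.succ).natAbs ≤ Z := by
    intro w hw a
    unfold WW
    split_ifs with h
    · rw [Int.natAbs_natCast]
      exact (hmem w hw).2.2 _ (by simp)
    · simp
  have hW0 : ∀ w : Fin k → ℕ, WW (s := s) w 0 = (w ⟨0, hk⟩ : ℤ) := by
    intro w
    unfold WW
    rw [dif_pos (by simpa using (show 0 < k by omega))]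
    rfl
  have hup : ∀ w ∈ F, ∀ i, (lin L i (Q *ᵥ WW w)).natAbs ≤ K * (2 * (K * Z)) := by
    intro w hw i
    rw [lin_sum]
    calc (∑ a, lin L i (fun j => Q j a) * WW w a).natAbs
        ≤ ∑ a, (lin L i (fun j => Q j a) * WW w a).natAbs := Int.natAbs_sum_le _ _
      _ ≤ ∑ a, (lin L i (fun j => Q j a)).natAbs * (2 * (K * Z)) := by
          refine Finset.sum_le_sum fun a _ => ?_
          rw [Int.natAbs_mul]
          exact Nat.mul_le_mul_left _ (hWle w hw a)
      _ = (∑ a, (lin L i (fun j => Q j a)).natAbs) * (2 * (K * Z)) := by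
          rw [Finset.sum_mul]
      _ ≤ K * (2 * (K * Z)) := Nat.mul_le_mul_right _ (hKi i)
  have hnz : ∀ w ∈ F, ∀ i : Fin (k + s), lin L (Fin.castAdd (s + 1) i) (Q *ᵥ WW w) ≠ 0 := by
    intro w hw i
    by_cases hi : (i : ℕ) < s
    · intro h0
      have h1 := hc0 i hi
      rw [lin_sum, Fin.sum_univ_succ, hW0] at h0
      have h2 : lin L (Fin.castAdd (s + 1) i) (fun j => Q j 0) * (w ⟨0, hk⟩ : ℤ) =
          -∑ a : Fin (k + s), lin L (Fin.castAdd (s + 1) i) (fun j => Q j a.succ) *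
            WW w a.succ := by linarith
      have h3 := congrArg Int.natAbs h2
      rw [Int.natAbs_mul, Int.natAbs_natCast, Int.natAbs_neg] at h3
      have h4 : (∑ a : Fin (k + s), lin L (Fin.castAdd (s + 1) i) (fun j => Q j a.succ) *
          WW w a.succ).natAbs ≤ K * Z := by
        calc _ ≤ ∑ a : Fin (k + s), (lin L (Fin.castAdd (s + 1) i) (fun j => Q j a.succ) *
              WW w a.succ).natAbs := Int.natAbs_sum_le _ _
          _ ≤ ∑ a : Fin (k + s), (lin L (Fin.castAdd (s + 1) i) (fun j => Q j a.succ)).natAbs *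
              Z := by
              refine Finset.sum_le_sum fun a _ => ?_
              rw [Int.natAbs_mul]
              exact Nat.mul_le_mul_left _ (hWsucc w hw a)
          _ = (∑ a : Fin (k + s), (lin L (Fin.castAdd (s + 1) i)
              (fun j => Q j a.succ)).natAbs) * Z := by rw [Finset.sum_mul]
          _ ≤ K * Z := by
              apply Nat.mul_le_mul_right
              refine le_trans ?_ (hKi (Fin.castAdd (s + 1) i))
              rw [Fin.sum_univ_succ (fun a => (lin L (Fin.castAdd (s + 1) i)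
                (fun j => Q j a)).natAbs)]
              exact Nat.le_add_left _ _
      have h5 : 1 ≤ (lin L (Fin.castAdd (s + 1) i) (fun j => Q j 0)).natAbs :=
        Nat.one_le_iff_ne_zero.2 (Int.natAbs_ne_zero.2 h1)
      have h6 : w ⟨0, hk⟩ ≤ (lin L (Fin.castAdd (s + 1) i) (fun j => Q j 0)).natAbs *
          w ⟨0, hk⟩ := Nat.le_mul_of_pos_left _ h5
      have h7 := (hmem w hw).1
      omega
    · have hik : (i : ℕ) - s < k := by have := i.2; omega
      have h1 : Fin.castAdd (s + 1) i = ee k s ⟨i - s, by omega⟩ := by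
        apply Fin.ext
        simp only [Fin.val_castAdd, ee]
        omega
      rw [h1, hQ]
      apply mul_ne_zero hD
      unfold WW
      rw [dif_pos (by simpa using hik)]
      have h2 := ((hmem w hw).2.1 ⟨i - s, hik⟩).1
      have h3 : w ⟨i - s, hik⟩ ≠ 0 := by omega
      exact_mod_cast h3
  have hinj : Set.InjOn X (F : Set (Fin k → ℕ)) := by
    intro w _ w' _ h
    funext a
    have h1 := hval w (ee k s ⟨a, by have := a.2; omega⟩)
    have h2 := hval w' (ee k s ⟨a, by have := a.2; omega⟩)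
    rw [← h, h1, hQ, hQ] at h2
    have h3 : D * WW (s := s) w ⟨a, by have := a.2; omega⟩ =
        D * WW (s := s) w' ⟨a, by have := a.2; omega⟩ := by
      apply mul_left_cancel₀ h2mN
      linarith
    have h4 := mul_left_cancel₀ hD h3
    unfold WW at h4
    rw [dif_pos (by simp), dif_pos (by simp)] at h4
    exact_mod_cast h4
  refine ⟨F.image X, ?_, ?_⟩
  · rw [Finset.card_image_of_injOn hinj]
    exact hFc
  · intro x hx
    obtain ⟨w, hw, rfl⟩ := Finset.mem_image.1 hx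
    refine ⟨?_, ?_, ?_, ?_, ?_⟩
    · -- primitive
      intro d hd
      have h1 : d ∣ N := by
        have h2 : d ∣ lin L (Fin.natAdd (k + s) (0 : Fin (s + 1))) (X w) := by
          unfold lin
          exact Finset.dvd_sum fun j _ => Dvd.dvd.mul_left (hd j) _
        rwa [hlast, ← hN] at h2
      apply hp d
      intro j
      have h2 := hd j
      rw [hX] at h2
      exact (dvd_add_right (Dvd.dvd.mul_right (Dvd.dvd.mul_left h1 _) _)).1 h2
    · -- nonzero
      intro i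
      refine Fin.addCases (fun i => ?_) (fun i => ?_) i
      · rw [hfirst]
        exact mul_ne_zero h2mN (hnz w hw i)
      · rw [hlast]
        exact hp2 i
    · -- radicals
      have r1 : ∀ i : Fin (k + s), radS S (lin L (Fin.castAdd (s + 1) i) (X w)) ≤ C1 * Z := by
        intro i
        rw [hfirst]
        obtain ⟨y, hy⟩ : ∃ y : ℤ, y = lin L (Fin.castAdd (s + 1) i) (Q *ᵥ WW w) := ⟨_, rfl⟩
        have hy0 : y ≠ 0 := by rw [hy]; exact hnz w hw i
        have hyle : y.natAbs ≤ K * (2 * (K * Z)) := by rw [hy]; exact hup w hw _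
        rw [← hy]
        have h1 : radS S ((2 ^ m * N) * y) ≤ 2 * (N.natAbs * y.natAbs) := by
          apply LT.radS_le
          · exact mul_ne_zero (by norm_num)
              (mul_ne_zero (by omega) (Int.natAbs_ne_zero.2 hy0))
          · intro q hq hqd
            rw [hnat] at hqd
            rcases (Nat.Prime.dvd_mul hq).1 hqd with h | h
            · rcases (Nat.Prime.dvd_mul hq).1 h with h' | h'
              · exact Dvd.dvd.mul_right (hq.dvd_of_dvd_pow h') _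
              · exact Dvd.dvd.mul_left (Dvd.dvd.mul_right h' _) _
            · exact Dvd.dvd.mul_left (Dvd.dvd.mul_left h _) _
        calc radS S ((2 ^ m * N) * y) ≤ 2 * (N.natAbs * y.natAbs) := h1
          _ ≤ 2 * (N.natAbs * (K * (2 * (K * Z)))) :=
              Nat.mul_le_mul_left _ (Nat.mul_le_mul_left _ hyle)
          _ = C1 * Z := by rw [hC1]; ring
      have r2 : ∀ i : Fin (s + 1), radS S (lin L (Fin.natAdd (k + s) i) (X w)) ≤ P0 := by
        intro i
        rw [hlast]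
        refine le_trans ?_ (hPi (Fin.natAdd (k + s) i))
        apply LT.radS_le
        · exact Int.natAbs_ne_zero.2 (hp2 i)
        · intro q _ h
          exact h
      rw [Fin.prod_univ_add]
      calc _ ≤ (∏ _i : Fin (k + s), C1 * Z) * ∏ _i : Fin (s + 1), P0 :=
            Nat.mul_le_mul (Finset.prod_le_prod' fun i _ => r1 i)
              (Finset.prod_le_prod' fun i _ => r2 i)
        _ = C1 ^ (k + s) * P0 ^ (s + 1) * Z ^ (k + s) := by
            rw [Finset.prod_const, Finset.prod_const, Finset.card_univ, Finset.card_univ,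
              Fintype.card_fin, Fintype.card_fin, mul_pow]
            ring
        _ ≤ Kc * Z ^ (k + s) := by
            apply Nat.mul_le_mul_right
            omega
    · -- height, above
      apply ht_le
      intro j
      have h1 : (Q *ᵥ WW w) j = ∑ a, Q j a * WW w a := rfl
      have h2 : ((Q *ᵥ WW w) j).natAbs ≤ Cq * (2 * (K * Z)) := by
        rw [h1]
        calc (∑ a, Q j a * WW w a).natAbs ≤ ∑ a, (Q j a * WW w a).natAbs :=
              Int.natAbs_sum_le _ _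
          _ ≤ ∑ a, (Q j a).natAbs * (2 * (K * Z)) := by
              refine Finset.sum_le_sum fun a _ => ?_
              rw [Int.natAbs_mul]
              exact Nat.mul_le_mul_left _ (hWle w hw a)
          _ = (∑ a, (Q j a).natAbs) * (2 * (K * Z)) := by rw [Finset.sum_mul]
          _ ≤ Cq * (2 * (K * Z)) := Nat.mul_le_mul_right _ (hCqj j)
      have h3 : 1 ≤ 2 ^ m * Z := Nat.mul_pos (pow_pos (by norm_num) m) hZ
      rw [hX]
      calc ((2 ^ m * N) * (Q *ᵥ WW w) j + p j).natAbs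
          ≤ ((2 ^ m * N) * (Q *ᵥ WW w) j).natAbs + (p j).natAbs := Int.natAbs_add_le _ _
        _ = 2 ^ m * N.natAbs * ((Q *ᵥ WW w) j).natAbs + (p j).natAbs := by rw [hnat]
        _ ≤ 2 ^ m * N.natAbs * (Cq * (2 * (K * Z))) + Cp * (2 ^ m * Z) :=
            Nat.add_le_add (Nat.mul_le_mul_left _ h2)
              ((hCpj j).trans (Nat.le_mul_of_pos_right _ h3))
        _ = C2 * (2 ^ m * Z) := by rw [hC2]; ring
        _ ≤ Kc * (2 ^ m * Z) := by
            apply Nat.mul_le_mul_right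
            omega
    · -- height, below
      have h1 := hval w (ee k s 0)
      have h0 : lin L (ee k s 0) p = 0 := by
        have h2 : ee k s 0 = Fin.castAdd (s + 1) ⟨s, by omega⟩ := by
          apply Fin.ext
          simp [ee]
        rw [h2]
        exact hp1 _
      rw [hQ, hW0, h0, add_zero] at h1
      have h2 : (lin L (ee k s 0) (X w)).natAbs ≤ CL * ht (X w) := by
        unfold lin
        calc _ ≤ ∑ j, (L (ee k s 0) j * (X w) j).natAbs := Int.natAbs_sum_le _ _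
          _ ≤ ∑ j, (L (ee k s 0) j).natAbs * ht (X w) := by
              refine Finset.sum_le_sum fun j _ => ?_
              rw [Int.natAbs_mul]
              exact Nat.mul_le_mul_left _ (le_ht (X w) j)
          _ = (∑ j, (L (ee k s 0) j).natAbs) * ht (X w) := by rw [Finset.sum_mul]
          _ ≤ CL * ht (X w) := Nat.mul_le_mul_right _ (hCLi _)
      rw [h1, hnat, Int.natAbs_mul, Int.natAbs_natCast] at h2
      have h3 : 1 ≤ D.natAbs := Nat.one_le_iff_ne_zero.2 (Int.natAbs_ne_zero.2 hD)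
      have h4 := (hmem w hw).1
      have h5 : Z ≤ D.natAbs * w ⟨0, hk⟩ := by
        have h6 : w ⟨0, hk⟩ ≤ D.natAbs * w ⟨0, hk⟩ := Nat.le_mul_of_pos_left _ h3
        omega
      calc 2 ^ m * Z ≤ 2 ^ m * N.natAbs * (D.natAbs * w ⟨0, hk⟩) :=
            Nat.mul_le_mul (Nat.le_mul_of_pos_right _ hN1) h5
        _ ≤ CL * ht (X w) := h2
        _ ≤ Kc * ht (X w) := by
            apply Nat.mul_le_mul_right
            omega

theorem low_aux (hk : 1 ≤ k) (hs : 1 ≤ s) (S : Finset ℕ)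
    (L : Matrix (Fin (k + s + (s + 1))) (Fin (k + s + 1)) ℤ) (hL : GenPos L) (A : ℝ) (hA : 0 < A)
    (lam : ℝ) (h0 : 0 < lam) (h1 : lam ≤ 1) :
    ∃ c : ℝ, 0 < c ∧ ∃ B₀ : ℕ, ∀ B : ℕ, B₀ ≤ B →
      c * (B : ℝ) ^ ((k : ℝ) / ((k : ℝ) + s) * lam) ≤ ((pts S L A lam B).ncard : ℝ) := by
  classical
  obtain ⟨Kc, hK1, hkey⟩ := key hk S L hL
  have hK0 : (0 : ℝ) < Kc := by exact_mod_cast hK1
  have hk1 : (1 : ℝ) ≤ k := by exact_mod_cast hk
  have hs1 : (1 : ℝ) ≤ s := by exact_mod_cast hs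
  have hks : (0 : ℝ) < (k : ℝ) + s := by linarith
  obtain ⟨D, hD⟩ : ∃ D : ℝ, D = 2 * (Kc : ℝ) ^ 2 := ⟨_, rfl⟩
  have hD0 : 0 < D := by rw [hD]; positivity
  obtain ⟨μ, hμ⟩ : ∃ μ : ℝ, μ = lam / ((k : ℝ) + s) := ⟨_, rfl⟩
  have hμ0 : 0 < μ := by rw [hμ]; exact div_pos h0 hks
  have hμ1 : μ < 1 := by
    rw [hμ, div_lt_one hks]
    linarith
  obtain ⟨c0, hc0⟩ : ∃ c0 : ℝ, c0 = (A / (Kc * D ^ lam)) ^ (1 / ((k : ℝ) + s)) := ⟨_, rfl⟩
  have hc0p : 0 < c0 := by
    rw [hc0]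
    exact Real.rpow_pos_of_pos (div_pos hA (mul_pos hK0 (Real.rpow_pos_of_pos hD0 _))) _
  have hc0n : c0 ^ (k + s) = A / (Kc * D ^ lam) := by
    rw [hc0, ← Real.rpow_mul_natCast
      (div_pos hA (mul_pos hK0 (Real.rpow_pos_of_pos hD0 _))).le]
    have h2 : 1 / ((k : ℝ) + s) * ((k + s : ℕ) : ℝ) = 1 := by
      push_cast
      field_simp
    rw [h2, Real.rpow_one]
  -- the threshold
  obtain ⟨B1, hB1⟩ : ∃ B1 : ℕ, ∀ B : ℕ, B1 ≤ B →
      1 ≤ c0 * (B : ℝ) ^ μ ∧ (Kc : ℝ) * (c0 * (B : ℝ) ^ μ) ≤ B ∧ 1 ≤ B := by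
    have t1 : Filter.Tendsto (fun B : ℕ => (B : ℝ) ^ μ) Filter.atTop Filter.atTop :=
      (tendsto_rpow_atTop hμ0).comp (tendsto_natCast_atTop_atTop (R := ℝ))
    have t2 : Filter.Tendsto (fun B : ℕ => (B : ℝ) ^ (1 - μ)) Filter.atTop Filter.atTop :=
      (tendsto_rpow_atTop (by linarith)).comp (tendsto_natCast_atTop_atTop (R := ℝ))
    have t3 := ((t1.eventually_ge_atTop (1 / c0)).and
      (t2.eventually_ge_atTop (Kc * c0))).and (Filter.eventually_ge_atTop 1)
    obtain ⟨B1, hB1⟩ := Filter.eventually_atTop.1 t3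
    refine ⟨B1, fun B hB => ?_⟩
    obtain ⟨⟨a, b⟩, c⟩ := hB1 B hB
    have hBp : (0 : ℝ) < B := by exact_mod_cast (by omega : 0 < B)
    refine ⟨?_, ?_, c⟩
    · rw [div_le_iff₀ hc0p] at a
      linarith
    · have h3 : (B : ℝ) = (B : ℝ) ^ (1 - μ) * (B : ℝ) ^ μ := by
        rw [← Real.rpow_add hBp, sub_add_cancel, Real.rpow_one]
      calc (Kc : ℝ) * (c0 * (B : ℝ) ^ μ) = Kc * c0 * (B : ℝ) ^ μ := by ring
        _ ≤ (B : ℝ) ^ (1 - μ) * (B : ℝ) ^ μ :=
            mul_le_mul_of_nonneg_right b (Real.rpow_nonneg hBp.le _)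
        _ = B := h3.symm
  refine ⟨(c0 / 2) ^ k, by positivity, B1, fun B hB => ?_⟩
  obtain ⟨hy1, hyB, hBone⟩ := hB1 B hB
  have hB0 : (0 : ℝ) < B := by exact_mod_cast (by omega : 0 < B)
  obtain ⟨y, hy⟩ : ∃ y : ℝ, y = c0 * (B : ℝ) ^ μ := ⟨_, rfl⟩
  rw [← hy] at hy1 hyB
  obtain ⟨Z, hZ⟩ : ∃ Z : ℕ, Z = ⌊y⌋₊ := ⟨_, rfl⟩
  have hZ1 : 1 ≤ Z := by
    rw [hZ]
    exact Nat.le_floor (by exact_mod_cast hy1)
  have hZy : (Z : ℝ) ≤ y := by
    rw [hZ]
    exact Nat.floor_le (by linarith)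
  have hyZ : y / 2 ≤ Z := by
    have h2 : y < (Z : ℝ) + 1 := by
      rw [hZ]
      exact Nat.lt_floor_add_one y
    have h3 : (1 : ℝ) ≤ Z := by exact_mod_cast hZ1
    linarith
  have hyn : y ^ (k + s) = A / (Kc * D ^ lam) * (B : ℝ) ^ lam := by
    rw [hy, mul_pow, hc0n, ← Real.rpow_mul_natCast hB0.le]
    congr 2
    rw [hμ]
    push_cast
    field_simp
  -- the power of two
  obtain ⟨K, hK⟩ : ∃ K : ℕ, K = Kc * Z := ⟨_, rfl⟩
  have hKp : 1 ≤ K := by
    rw [hK]
    exact Nat.mul_pos hK1 hZ1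
  have hKB : K ≤ B := by
    have h2 : (K : ℝ) ≤ B := by
      rw [hK]
      push_cast
      exact (mul_le_mul_of_nonneg_left hZy hK0.le).trans hyB
    exact_mod_cast h2
  obtain ⟨m, hm⟩ : ∃ m : ℕ, m = Nat.log 2 (B / K) := ⟨_, rfl⟩
  have hBK : B / K ≠ 0 := (Nat.div_pos hKB (by omega)).ne'
  have hm1 : 2 ^ m * K ≤ B := by
    have h2 : 2 ^ m ≤ B / K := by
      rw [hm]
      exact Nat.pow_log_le_self 2 hBK
    exact (Nat.le_div_iff_mul_le (by omega)).1 h2
  have hm2 : B < 2 ^ (m + 1) * K := by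
    have h2 : B / K < 2 ^ (m + 1) := by
      rw [hm]
      exact Nat.lt_pow_succ_log_self (by norm_num) _
    exact (Nat.div_lt_iff_lt_mul (by omega)).1 h2
  obtain ⟨T, hT1, hT2⟩ := hkey m Z hZ1
  have hsub : (T : Set (Fin (k + s + 1) → ℤ)) ⊆ pts S L A lam B := by
    intro x hx
    obtain ⟨g1, g2, g3, g4, g5⟩ := hT2 x (Finset.mem_coe.1 hx)
    refine ⟨g1, g2, ?_, ?_⟩
    · have r3 : (B : ℝ) / D ≤ ht x := by
        rw [div_le_iff₀ hD0, hD]
        have h2 : (B : ℝ) ≤ 2 * (Kc * (2 ^ m * Z)) := by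
          have h3 : B ≤ 2 * (Kc * (2 ^ m * Z)) := by
            calc B ≤ 2 ^ (m + 1) * K := hm2.le
              _ = 2 * (Kc * (2 ^ m * Z)) := by rw [hK]; ring
          exact_mod_cast h3
        have h3 : (2 : ℝ) ^ m * Z ≤ Kc * ht x := by exact_mod_cast g5
        calc (B : ℝ) ≤ 2 * (Kc * (2 ^ m * Z)) := h2
          _ ≤ 2 * (Kc * (Kc * ht x)) := by
              apply mul_le_mul_of_nonneg_left _ (by norm_num)
              exact mul_le_mul_of_nonneg_left h3 hK0.le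
          _ = _ := by ring
      have h2 : (∏ i, (radS S (lin L i x) : ℝ)) ≤ Kc * (Z : ℝ) ^ (k + s) := by
        exact_mod_cast g3
      calc ∏ i, (radS S (lin L i x) : ℝ) ≤ Kc * (Z : ℝ) ^ (k + s) := h2
        _ ≤ Kc * y ^ (k + s) := by
            apply mul_le_mul_of_nonneg_left _ hK0.le
            exact pow_le_pow_left₀ (Nat.cast_nonneg _) hZy _
        _ = A * ((B : ℝ) / D) ^ lam := by
            rw [hyn, Real.div_rpow hB0.le hD0.le]
            field_simp
        _ ≤ A * (ht x : ℝ) ^ lam := by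
            apply mul_le_mul_of_nonneg_left _ hA.le
            exact Real.rpow_le_rpow (by positivity) r3 h0.le
    · calc ht x ≤ Kc * (2 ^ m * Z) := g4
        _ = 2 ^ m * K := by rw [hK]; ring
        _ ≤ B := hm1
  have hcard : T.card ≤ (pts S L A lam B).ncard := by
    rw [← Set.ncard_coe_finset]
    exact Set.ncard_le_ncard hsub (finite_pts _ _ _ _ _)
  have hexp : (k : ℝ) / ((k : ℝ) + s) * lam = μ * k := by
    rw [hμ]
    ring
  rw [hexp, Real.rpow_mul_natCast hB0.le, ← mul_pow]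
  calc (c0 / 2 * (B : ℝ) ^ μ) ^ k = (y / 2) ^ k := by
        rw [hy]
        congr 1
        ring
    _ ≤ (Z : ℝ) ^ k := pow_le_pow_left₀ (by linarith) hyZ k
    _ = ((Z ^ k : ℕ) : ℝ) := by push_cast; rfl
    _ ≤ (T.card : ℝ) := by exact_mod_cast hT1
    _ ≤ _ := by exact_mod_cast hcard

end

/-- **Lower bound.** For `n + 2 ≤ r ≤ 2 n` and every `r` forms in general position. -/
theorem low_r (n r : ℕ) (hr : n + 2 ≤ r) (hr2 : r ≤ 2 * n) (S : Finset ℕ)
    (L : Matrix (Fin r) (Fin (n + 1)) ℤ) (hL : GenPos L) (A : ℝ) (hA : 0 < A) (lam : ℝ)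
    (h0 : 0 < lam) (h1 : lam ≤ 1) :
    ∃ c : ℝ, 0 < c ∧ ∃ B₀ : ℕ, ∀ B : ℕ, B₀ ≤ B →
      c * (B : ℝ) ^ ((2 * (n : ℝ) + 1 - r) / n * lam) ≤ ((pts S L A lam B).ncard : ℝ) := by
  obtain ⟨s, hs⟩ : ∃ s, s = r - n - 1 := ⟨_, rfl⟩
  obtain ⟨k, hk⟩ : ∃ k, k = n - s := ⟨_, rfl⟩
  have hn : n = k + s := by omega
  have hr' : r = k + s + (s + 1) := by omega
  subst hr'
  subst hn
  obtain ⟨c, hc, B0, hB⟩ := low_aux (k := k) (s := s) (by omega) (by omega) S L hL A hA lam h0 h1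
  refine ⟨c, hc, B0, fun B hBB => ?_⟩
  have h2 : (2 * ((k + s : ℕ) : ℝ) + 1 - ((k + s + (s + 1) : ℕ) : ℝ)) / ((k + s : ℕ) : ℝ) * lam =
      (k : ℝ) / ((k : ℝ) + s) * lam := by
    push_cast
    congr 2
    ring
  rw [h2]
  exact hB B hBB

end Pool.Agent.Helper97.RP.LR
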