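import Mathlib

/-!
The `k` smallest of `r` positive integers (MP_464c42_nt, project RP): their product to the power `r` is at most
the whole product to the power `k`.
-/

set_option autoImplicit false

namespace Pool.Agent.Helper97.RP

/-- A set of `k` indices with the smallest values. -/
theorem small_set {r k : ℕ} (hk : k ≤ r) (R : Fin r → ℕ) :
    ∃ s : Finset (Fin r), s.card = k ∧ ∀ i ∈ s, ∀ j, j ∉ s → R i ≤ R j := by
  classical
  have hmono : Monotone (R ∘ Tuple.sort R) := Tuple.monotone_sort R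
  refine ⟨(Finset.univ.filter (fun i : Fin r => (i : ℕ) < k)).image (Tuple.sort R), ?_, ?_⟩
  · rw [Finset.card_image_of_injective _ (Tuple.sort R).injective]
    have h1 : (Finset.univ.filter (fun i : Fin r => (i : ℕ) < k)).card =
        (Finset.univ : Finset (Fin k)).card := by
      refine Finset.card_bij' (fun i hi => (⟨(i : ℕ), (Finset.mem_filter.1 hi).2⟩ : Fin k))
        (fun i _ => Fin.castLE hk i) ?_ ?_ ?_ ?_
      · intro i hi
        exact Finset.mem_univ _
      · intro i hi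
        rw [Finset.mem_filter]
        exact ⟨Finset.mem_univ _, i.2⟩
      · intro i hi
        rfl
      · intro i hi
        rfl
    rw [h1, Finset.card_univ, Fintype.card_fin]
  · intro i hi j hj
    obtain ⟨i', hi', rfl⟩ := Finset.mem_image.1 hi
    obtain ⟨j', rfl⟩ := (Tuple.sort R).surjective j
    have h2 : k ≤ (j' : ℕ) := by
      by_contra hcon
      exact hj (Finset.mem_image_of_mem _ (Finset.mem_filter.2 ⟨Finset.mem_univ _, by omega⟩))
    have h3 := (Finset.mem_filter.1 hi').2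
    exact hmono (show i' ≤ j' from Fin.le_def.2 (by omega))

theorem min_sel {r k : ℕ} (hk : k ≤ r) (R : Fin r → ℕ) (hR : ∀ i, 1 ≤ R i) :
    ∃ e : Fin k → Fin r, Function.Injective e ∧ (∏ i, R (e i)) ^ r ≤ (∏ i, R i) ^ k := by
  classical
  obtain ⟨s, hs, hmin⟩ := small_set hk R
  refine ⟨fun i => s.orderEmbOfFin hs i, (s.orderEmbOfFin hs).injective, ?_⟩
  have h1 : ∏ i : Fin k, R (s.orderEmbOfFin hs i) = ∏ i ∈ s, R i := by
    rw [← Finset.prod_image (s := (Finset.univ : Finset (Fin k))) (g := fun i => s.orderEmbOfFin hs i)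
      (f := R) (fun i _ j _ h => (s.orderEmbOfFin hs).injective h)]
    congr 1
    exact Finset.image_orderEmbOfFin_univ s hs
  rw [h1]
  have h2 : (∏ i ∈ s, R i) * ∏ i ∈ sᶜ, R i = ∏ i, R i := Finset.prod_mul_prod_compl s R
  have hc : sᶜ.card = r - k := by rw [Finset.card_compl, Fintype.card_fin, hs]
  have h3 : (∏ i ∈ s, R i) ^ (r - k) ≤ (∏ i ∈ sᶜ, R i) ^ k := by
    calc (∏ i ∈ s, R i) ^ (r - k) = ∏ _j ∈ sᶜ, ∏ i ∈ s, R i := by rw [Finset.prod_const, hc]
      _ ≤ ∏ j ∈ sᶜ, ∏ _i ∈ s, R j := by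
        refine Finset.prod_le_prod' fun j hj => Finset.prod_le_prod' fun i hi => ?_
        exact hmin i hi j (Finset.mem_compl.1 hj)
      _ = ∏ j ∈ sᶜ, R j ^ k := Finset.prod_congr rfl fun j _ => by rw [Finset.prod_const, hs]
      _ = (∏ i ∈ sᶜ, R i) ^ k := Finset.prod_pow _ _ _
  calc (∏ i ∈ s, R i) ^ r = (∏ i ∈ s, R i) ^ k * (∏ i ∈ s, R i) ^ (r - k) := by
        rw [← pow_add]; congr 1; omega
    _ ≤ (∏ i ∈ s, R i) ^ k * (∏ i ∈ sᶜ, R i) ^ k := Nat.mul_le_mul_left _ h3
    _ = (∏ i, R i) ^ k := by rw [← mul_pow, h2]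

end Pool.Agent.Helper97.RP
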